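import Mathlib

/-!
# Symmetric rendezvous on `n` indistinguishable locations: definitions
-/

open MeasureTheory

namespace Pool.Agent.H383Rdv

/-- The number of periods used up to and including the first one at which the two sequences of
positions agree (`∞` if they never agree). -/
noncomputable def firstMeet {n : ℕ} (a b : ℕ → Fin n) : ENNReal :=
  ⨅ (t : ℕ) (_ : a t = b t), ((t : ENNReal) + 1)

/-- Expected meeting time when both players draw their sequence of own labels independently from the
probability measure `μ` on `ℕ → Fin n` (a mixed strategy), and label `j` of player 2 corresponds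
to label `π j` of player 1 for a uniformly random bijection `π`. -/
noncomputable def expMeet (n : ℕ) (μ : Measure (ℕ → Fin n)) : ENNReal :=
  (∑ π : Equiv.Perm (Fin n), ∫⁻ p : (ℕ → Fin n) × (ℕ → Fin n),
    firstMeet p.1 (fun t => π (p.2 t)) ∂(μ.prod μ)) / (n.factorial : ENNReal)

/-- The symmetric rendezvous value of the telephone problem: the infimum of the expected meeting
time over all common mixed strategies. -/
noncomputable def symValue (n : ℕ) : ENNReal :=
  ⨅ (μ : Measure (ℕ → Fin n)) (_ : IsProbabilityMeasure μ), expMeet n μ

/-- Expected meeting day when both players draw their sequence of own labels from `μ` and use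
independent uniformly random bijections `σ₁, σ₂` from labels to the `n` locations. -/
noncomputable def expMeet2 (n : ℕ) (μ : Measure (ℕ → Fin n)) : ENNReal :=
  (∑ σ₁ : Equiv.Perm (Fin n), ∑ σ₂ : Equiv.Perm (Fin n),
    ∫⁻ p : (ℕ → Fin n) × (ℕ → Fin n),
      firstMeet (fun t => σ₁ (p.1 t)) (fun t => σ₂ (p.2 t)) ∂(μ.prod μ)) /
    ((n.factorial : ENNReal) * (n.factorial : ENNReal))

/-- The value `R_n`: the infimum of the expected meeting day over all common mixed strategies. -/
noncomputable def rendezvousValue (n : ℕ) : ENNReal :=
  ⨅ (μ : Measure (ℕ → Fin n)) (_ : IsProbabilityMeasure μ), expMeet2 n μ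

/-- The probability that the players have met by the end of the first `t` periods. -/
noncomputable def probMet (n : ℕ) (μ : Measure (ℕ → Fin n)) (t : ℕ) : ℝ :=
  (∑ π : Equiv.Perm (Fin n),
    ((μ.prod μ) {p : (ℕ → Fin n) × (ℕ → Fin n) | ∃ s < t, p.1 s = π (p.2 s)}).toReal) / (n.factorial : ℝ)

/-- The probability that the players have met by the end of day `t`, in the version with two
independent uniformly random bijections from labels to locations. -/
noncomputable def probMet2 (n : ℕ) (μ : Measure (ℕ → Fin n)) (t : ℕ) : ℝ :=
  (∑ σ₁ : Equiv.Perm (Fin n), ∑ σ₂ : Equiv.Perm (Fin n),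
    ((μ.prod μ) {p : (ℕ → Fin n) × (ℕ → Fin n) | ∃ s < t, σ₁ (p.1 s) = σ₂ (p.2 s)}).toReal) /
    ((n.factorial : ℝ) * (n.factorial : ℝ))

end Pool.Agent.H383Rdv
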