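import Mathlib

namespace Pool.Agent.H383Rdv
section
open Finset
theorem perm_counts_aux (n : ℕ) (P : Equiv.Perm (Fin n) → Prop) [DecidablePred P]
    (F : Finset (Fin n)) (b : Fin n)
    (h1 : ∀ π, P π → π b ∉ F)
    (h2 : ∀ π, P π → ∀ x y, x ∉ F → y ∉ F → P (Equiv.swap x y * π))
    (a : Fin n) (ha : a ∉ F) :
    (n - F.card) * (univ.filter (fun π : Equiv.Perm (Fin n) => P π ∧ a = π b)).card =
      (univ.filter (fun π : Equiv.Perm (Fin n) => P π)).card := by
  classical
  have hmaps : ∀ π ∈ (univ.filter (fun π : Equiv.Perm (Fin n) => P π)), π b ∈ (univ \ F) := by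
    intro π hπ
    rw [mem_filter] at hπ
    simp [h1 π hπ.2]
  have hsum := Finset.card_eq_sum_card_fiberwise (f := fun π : Equiv.Perm (Fin n) => π b)
    (s := univ.filter (fun π : Equiv.Perm (Fin n) => P π)) (t := univ \ F) hmaps
  rw [hsum]
  have heq : ∀ a' ∈ (univ \ F : Finset (Fin n)),
      ((univ.filter (fun π : Equiv.Perm (Fin n) => P π)).filter (fun π => π b = a')).card =
      (univ.filter (fun π : Equiv.Perm (Fin n) => P π ∧ a = π b)).card := by
    intro a' ha'
    have ha'F : a' ∉ F := by simpa using ha'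
    refine Finset.card_bij (fun π _ => Equiv.swap a a' * π) ?_ ?_ ?_
    · intro π hπ
      simp only [mem_filter, mem_univ, true_and] at hπ ⊢
      refine ⟨h2 π hπ.1 a a' ha ha'F, ?_⟩
      rw [Equiv.Perm.mul_apply, hπ.2, Equiv.swap_apply_right]
    · intro π _ π' _ h
      exact mul_left_cancel h
    · intro π hπ
      simp only [mem_filter, mem_univ, true_and] at hπ
      refine ⟨Equiv.swap a a' * π, ?_, ?_⟩
      · simp only [mem_filter, mem_univ, true_and]
        refine ⟨h2 π hπ.1 a a' ha ha'F, ?_⟩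
        rw [Equiv.Perm.mul_apply, ← hπ.2, Equiv.swap_apply_left]
      · rw [← mul_assoc, Equiv.swap_mul_self, one_mul]
  rw [Finset.sum_congr rfl heq, Finset.sum_const, smul_eq_mul]
  congr 1
  rw [Finset.card_sdiff_of_subset (subset_univ F)]
  simp

theorem perm_counts (n : ℕ) (hn : 3 ≤ n) :
    (∀ a b : Fin n, (univ.filter (fun π : Equiv.Perm (Fin n) => a = π b)).card = (n - 1).factorial) ∧
    (∀ a b a' b' : Fin n, a ≠ a' → b ≠ b' →
      (univ.filter (fun π : Equiv.Perm (Fin n) => a = π b ∧ a' = π b')).card = (n - 2).factorial) ∧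
    (∀ a b a' b' a'' b'' : Fin n, a ≠ a' → a ≠ a'' → a' ≠ a'' → b ≠ b' → b ≠ b'' → b' ≠ b'' →
      (univ.filter (fun π : Equiv.Perm (Fin n) => a = π b ∧ a' = π b' ∧ a'' = π b'')).card = (n - 3).factorial) := by
  obtain ⟨m, rfl⟩ : ∃ m, n = m + 3 := ⟨n - 3, by omega⟩
  have H1 : ∀ a b : Fin (m + 3), (univ.filter (fun π : Equiv.Perm (Fin (m + 3)) => a = π b)).card =
      (m + 2).factorial := by
    intro a b
    have h := perm_counts_aux (m + 3) (fun _ => True) ∅ b (by simp) (by simp) a (by simp)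
    simp only [Finset.card_empty, Nat.sub_zero, true_and, Finset.filter_true, Finset.card_univ,
      Fintype.card_perm, Fintype.card_fin] at h
    have h3 : (m + 3).factorial = (m + 3) * (m + 2).factorial := Nat.factorial_succ (m + 2)
    rw [h3] at h
    exact Nat.eq_of_mul_eq_mul_left (by omega) h
  have H2 : ∀ a b a' b' : Fin (m + 3), a ≠ a' → b ≠ b' →
      (univ.filter (fun π : Equiv.Perm (Fin (m + 3)) => a = π b ∧ a' = π b')).card =
      (m + 1).factorial := by
    intro a b a' b' haa hbb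
    have h := perm_counts_aux (m + 3) (fun π => a = π b) {a} b' (by
      intro π hπ hm
      rw [mem_singleton] at hm
      exact hbb (π.injective (hπ.symm.trans hm.symm))) (by
      intro π hπ x y hx hy
      rw [mem_singleton] at hx hy
      rw [Equiv.Perm.mul_apply, ← hπ, Equiv.swap_apply_of_ne_of_ne (Ne.symm hx) (Ne.symm hy)]) a'
      (by rw [mem_singleton]; exact Ne.symm haa)
    rw [H1, Finset.card_singleton] at h
    have h3 : (m + 2).factorial = (m + 2) * (m + 1).factorial := Nat.factorial_succ (m + 1)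
    rw [h3] at h
    exact Nat.eq_of_mul_eq_mul_left (show 0 < m + 2 by omega) h
  refine ⟨H1, H2, ?_⟩
  intro a b a' b' a'' b'' h12 h13 h23 g12 g13 g23
  have h := perm_counts_aux (m + 3) (fun π => a = π b ∧ a' = π b') {a, a'} b'' (by
      rintro π ⟨hπ, hπ'⟩ hm
      rw [mem_insert, mem_singleton] at hm
      rcases hm with hm | hm
      · exact g13 (π.injective (hπ.symm.trans hm.symm))
      · exact g23 (π.injective (hπ'.symm.trans hm.symm))) (by
      rintro π ⟨hπ, hπ'⟩ x y hx hy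
      rw [mem_insert, mem_singleton, not_or] at hx hy
      rw [Equiv.Perm.mul_apply, Equiv.Perm.mul_apply, ← hπ, ← hπ',
        Equiv.swap_apply_of_ne_of_ne (Ne.symm hx.1) (Ne.symm hy.1),
        Equiv.swap_apply_of_ne_of_ne (Ne.symm hx.2) (Ne.symm hy.2)]
      exact ⟨rfl, rfl⟩) a''
      (by rw [mem_insert, mem_singleton, not_or]; exact ⟨Ne.symm h13, Ne.symm h23⟩)
  rw [H2 a b a' b' h12 g12, Finset.card_pair h12] at h
  have h3 : (m + 1).factorial = (m + 1) * m.factorial := Nat.factorial_succ m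
  rw [h3] at h
  have h4 := Nat.eq_of_mul_eq_mul_left (show 0 < m + 1 by omega) h
  simp only [and_assoc] at h4
  exact h4
end
end Pool.Agent.H383Rdv

namespace Pool.Agent.H383Rdv
section
open Finset
theorem triple_count {α : Type*} [DecidableEq α] (S : Finset α) :
    (((S ×ˢ S ×ˢ S).filter (fun t => t.1 ≠ t.2.1 ∧ t.1 ≠ t.2.2 ∧ t.2.1 ≠ t.2.2)).card : ℝ) =
      (S.card : ℝ) * (S.card - 1) * (S.card - 2) := by
  rw [Finset.natCast_card_filter, Finset.sum_product]
  have h3 : ∀ p ∈ S, ∀ q ∈ S, p ≠ q → (∑ r ∈ S, if p ≠ q ∧ p ≠ r ∧ q ≠ r then (1:ℝ) else 0) =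
      (S.card : ℝ) - 2 := by
    intro p hp q hq hpq
    have e : S.filter (fun r => p ≠ q ∧ p ≠ r ∧ q ≠ r) = (S.erase p).erase q := by
      ext r
      simp only [mem_filter, mem_erase]
      constructor
      · rintro ⟨a, _, b, c⟩
        exact ⟨Ne.symm c, Ne.symm b, a⟩
      · rintro ⟨a, b, c⟩
        exact ⟨c, hpq, Ne.symm b, Ne.symm a⟩
    rw [← Finset.natCast_card_filter, e]
    have hq' : q ∈ S.erase p := mem_erase.2 ⟨Ne.symm hpq, hq⟩
    have a1 := Finset.card_erase_add_one hq'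
    have a2 := Finset.card_erase_add_one hp
    have a3 : (((S.erase p).erase q).card : ℝ) + 1 + 1 = S.card := by
      rw [← a2, ← a1]; push_cast; ring
    linarith
  have h2 : ∀ p ∈ S, (∑ t ∈ S ×ˢ S, if p ≠ t.1 ∧ p ≠ t.2 ∧ t.1 ≠ t.2 then (1:ℝ) else 0) =
      ((S.card : ℝ) - 1) * ((S.card : ℝ) - 2) := by
    intro p hp
    rw [Finset.sum_product]
    have e : ∀ q ∈ S, (∑ r ∈ S, if p ≠ (q, r).1 ∧ p ≠ (q, r).2 ∧ (q, r).1 ≠ (q, r).2 then (1:ℝ) else 0) =
        if q ∈ S.erase p then (S.card : ℝ) - 2 else 0 := by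
      intro q hq
      by_cases hpq : p = q
      · subst hpq
        simp
      · rw [if_pos (mem_erase.2 ⟨Ne.symm hpq, hq⟩)]
        exact h3 p hp q hq hpq
    rw [Finset.sum_congr rfl e, ← Finset.sum_filter]
    have e2 : S.filter (fun q => q ∈ S.erase p) = S.erase p := by
      ext q; simp only [mem_filter, mem_erase]; tauto
    rw [e2, Finset.sum_const, nsmul_eq_mul]
    have a2 := Finset.card_erase_add_one hp
    have a3 : ((S.erase p).card : ℝ) = S.card - 1 := by rw [← a2]; push_cast; ring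
    rw [a3]
  calc _ = ∑ p ∈ S, ((S.card : ℝ) - 1) * ((S.card : ℝ) - 2) := Finset.sum_congr rfl h2
    _ = _ := by rw [Finset.sum_const, nsmul_eq_mul]; ring

theorem hits_bound (n : ℕ) (hn : 3 ≤ n)
    (h1 : ∀ a b : Fin n, (univ.filter (fun π : Equiv.Perm (Fin n) => a = π b)).card = (n - 1).factorial)
    (h2 : ∀ a b a' b' : Fin n, a ≠ a' → b ≠ b' →
      (univ.filter (fun π : Equiv.Perm (Fin n) => a = π b ∧ a' = π b')).card = (n - 2).factorial)
    (h3 : ∀ a b a' b' a'' b'' : Fin n, a ≠ a' → a ≠ a'' → a' ≠ a'' → b ≠ b' → b ≠ b'' → b' ≠ b'' →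
      (univ.filter (fun π : Equiv.Perm (Fin n) => a = π b ∧ a' = π b' ∧ a'' = π b'')).card = (n - 3).factorial)
    (E : Finset (Fin n × Fin n)) :
    ((univ.filter (fun π : Equiv.Perm (Fin n) => ∃ p ∈ E, p.1 = π p.2)).card : ℝ)
      ≤ E.card * (n - 1).factorial
        - ((E ×ˢ E).filter (fun q => q.1.1 ≠ q.2.1 ∧ q.1.2 ≠ q.2.2)).card * (n - 2).factorial / 2
        + (E.card : ℝ) ^ 3 * (n - 3).factorial / 6 := by
  obtain ⟨S, hS⟩ : ∃ S : Equiv.Perm (Fin n) → Finset (Fin n × Fin n),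
      ∀ π, S π = E.filter (fun p => p.1 = π p.2) := ⟨_, fun _ => rfl⟩
  have hmem : ∀ π p, p ∈ S π ↔ p ∈ E ∧ p.1 = π p.2 := by
    intro π p; rw [hS, mem_filter]
  have hdis : ∀ π p q, p ∈ S π → q ∈ S π → p ≠ q → p.1 ≠ q.1 ∧ p.2 ≠ q.2 := by
    intro π p q hp hq hpq
    have hp' := ((hmem π p).1 hp).2
    have hq' := ((hmem π q).1 hq).2
    refine ⟨fun h => hpq ?_, fun h => hpq ?_⟩
    · have : π p.2 = π q.2 := by rw [← hp', ← hq', h]
      exact Prod.ext h (π.injective this)
    · refine Prod.ext ?_ h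
      rw [hp', hq', h]
  have hpt : ∀ π : Equiv.Perm (Fin n), ((if ∃ p ∈ E, p.1 = π p.2 then (1:ℝ) else 0)) ≤
      ((S π).card : ℝ) - (((S π).card : ℝ) ^ 2 - (S π).card) / 2 +
        ((S π).card : ℝ) * ((S π).card - 1) * ((S π).card - 2) / 6 := by
    intro π
    obtain ⟨N, hN⟩ : ∃ N, N = (S π).card := ⟨_, rfl⟩
    rw [← hN]
    have key : (if N = 0 then (0:ℝ) else 1) ≤ (N:ℝ) - ((N:ℝ) ^ 2 - N) / 2 +
        (N:ℝ) * (N - 1) * (N - 2) / 6 := by
      rcases N with _ | _ | _ | k
      · norm_num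
      · norm_num
      · norm_num
      · rw [if_neg (by omega)]
        push_cast
        have hk : (0:ℝ) ≤ k := Nat.cast_nonneg k
        have : (0:ℝ) ≤ (k + 2) * (k + 1) * k := by positivity
        nlinarith
    refine le_trans ?_ key
    by_cases hex : ∃ p ∈ E, p.1 = π p.2
    · have : N ≠ 0 := by
        obtain ⟨p, hp, hp'⟩ := hex
        rw [hN]
        exact Finset.card_ne_zero_of_mem ((hmem π p).2 ⟨hp, hp'⟩)
      rw [if_pos hex, if_neg this]
    · rw [if_neg hex]
      split_ifs <;> norm_num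
  have s1 : ∑ π, ((S π).card : ℝ) = E.card * (n - 1).factorial := by
    calc ∑ π, ((S π).card : ℝ) = ∑ π : Equiv.Perm (Fin n), ∑ p ∈ E, if p.1 = π p.2 then (1:ℝ) else 0 := by
          refine Finset.sum_congr rfl fun π _ => ?_
          rw [hS, Finset.natCast_card_filter]
      _ = ∑ p ∈ E, ∑ π : Equiv.Perm (Fin n), if p.1 = π p.2 then (1:ℝ) else 0 := Finset.sum_comm
      _ = ∑ p ∈ E, ((n - 1).factorial : ℝ) := by
          refine Finset.sum_congr rfl fun p _ => ?_
          rw [← Finset.natCast_card_filter, h1]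
      _ = _ := by rw [Finset.sum_const, nsmul_eq_mul]
  obtain ⟨D, hD⟩ : ∃ D, D = (E ×ˢ E).filter (fun q => q.1.1 ≠ q.2.1 ∧ q.1.2 ≠ q.2.2) := ⟨_, rfl⟩
  rw [← hD]
  have s2 : ∑ π, (((S π).card : ℝ) ^ 2 - (S π).card) = D.card * (n - 2).factorial := by
    calc ∑ π, (((S π).card : ℝ) ^ 2 - (S π).card)
        = ∑ π : Equiv.Perm (Fin n), ∑ q ∈ D, if q.1.1 = π q.1.2 ∧ q.2.1 = π q.2.2 then (1:ℝ) else 0 := by
          refine Finset.sum_congr rfl fun π _ => ?_
          rw [← Finset.natCast_card_filter]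
          have e : D.filter (fun q => q.1.1 = π q.1.2 ∧ q.2.1 = π q.2.2) = (S π).offDiag := by
            ext ⟨p, q⟩
            rw [mem_filter, mem_offDiag, hD, mem_filter, mem_product, hmem, hmem]
            constructor
            · rintro ⟨⟨⟨a, b⟩, c, d⟩, e, f⟩
              refine ⟨⟨a, e⟩, ⟨b, f⟩, fun h => c ?_⟩
              simp only at h ⊢
              rw [h]
            · rintro ⟨⟨a, e⟩, ⟨b, f⟩, g⟩
              exact ⟨⟨⟨a, b⟩, hdis π p q ((hmem π p).2 ⟨a, e⟩) ((hmem π q).2 ⟨b, f⟩) g⟩, e, f⟩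
          rw [e, Finset.offDiag_card, Nat.cast_sub (Nat.le_mul_self _)]
          push_cast; ring
      _ = ∑ q ∈ D, ∑ π : Equiv.Perm (Fin n), if q.1.1 = π q.1.2 ∧ q.2.1 = π q.2.2 then (1:ℝ) else 0 :=
          Finset.sum_comm
      _ = ∑ q ∈ D, ((n - 2).factorial : ℝ) := by
          refine Finset.sum_congr rfl fun q hq => ?_
          rw [hD, mem_filter] at hq
          rw [← Finset.natCast_card_filter, h2 _ _ _ _ hq.2.1 hq.2.2]
      _ = _ := by rw [Finset.sum_const, nsmul_eq_mul]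
  obtain ⟨T, hT⟩ : ∃ T, T = (E ×ˢ E ×ˢ E).filter (fun t => t.1.1 ≠ t.2.1.1 ∧ t.1.1 ≠ t.2.2.1 ∧
      t.2.1.1 ≠ t.2.2.1 ∧ t.1.2 ≠ t.2.1.2 ∧ t.1.2 ≠ t.2.2.2 ∧ t.2.1.2 ≠ t.2.2.2) := ⟨_, rfl⟩
  have s3 : ∑ π, ((S π).card : ℝ) * ((S π).card - 1) * ((S π).card - 2) =
      T.card * (n - 3).factorial := by
    calc ∑ π, ((S π).card : ℝ) * ((S π).card - 1) * ((S π).card - 2)
        = ∑ π : Equiv.Perm (Fin n), ∑ t ∈ T, if t.1.1 = π t.1.2 ∧ t.2.1.1 = π t.2.1.2 ∧
            t.2.2.1 = π t.2.2.2 then (1:ℝ) else 0 := by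
          refine Finset.sum_congr rfl fun π _ => ?_
          rw [← Finset.natCast_card_filter, ← triple_count]
          congr 2
          ext ⟨p, q, r⟩
          rw [mem_filter, mem_filter, hT, mem_filter, mem_product, mem_product, mem_product,
            mem_product, hmem, hmem, hmem]
          constructor
          · rintro ⟨⟨⟨a, a'⟩, ⟨b, b'⟩, ⟨c, c'⟩⟩, d, e, f⟩
            have hp := (hmem π p).2 ⟨a, a'⟩
            have hq := (hmem π q).2 ⟨b, b'⟩
            have hr := (hmem π r).2 ⟨c, c'⟩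
            have x1 := hdis π p q hp hq d
            have x2 := hdis π p r hp hr e
            have x3 := hdis π q r hq hr f
            exact ⟨⟨⟨a, b, c⟩, x1.1, x2.1, x3.1, x1.2, x2.2, x3.2⟩, a', b', c'⟩
          · rintro ⟨⟨⟨a, b, c⟩, x1, x2, x3, x4, x5, x6⟩, a', b', c'⟩
            refine ⟨⟨⟨a, a'⟩, ⟨b, b'⟩, ⟨c, c'⟩⟩, fun h => x1 ?_, fun h => x2 ?_, fun h => x3 ?_⟩
            · simp only at h ⊢; rw [h]
            · simp only at h ⊢; rw [h]
            · simp only at h ⊢; rw [h]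
      _ = ∑ t ∈ T, ∑ π : Equiv.Perm (Fin n), if t.1.1 = π t.1.2 ∧ t.2.1.1 = π t.2.1.2 ∧
            t.2.2.1 = π t.2.2.2 then (1:ℝ) else 0 := Finset.sum_comm
      _ = ∑ t ∈ T, ((n - 3).factorial : ℝ) := by
          refine Finset.sum_congr rfl fun t ht => ?_
          rw [hT, mem_filter] at ht
          obtain ⟨_, y1, y2, y3, y4, y5, y6⟩ := ht
          rw [← Finset.natCast_card_filter, h3 _ _ _ _ _ _ y1 y2 y3 y4 y5 y6]
      _ = _ := by rw [Finset.sum_const, nsmul_eq_mul]
  have hTc : (T.card : ℝ) ≤ (E.card : ℝ) ^ 3 := by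
    have : T.card ≤ E.card ^ 3 := by
      rw [hT]
      refine (Finset.card_filter_le _ _).trans ?_
      rw [card_product, card_product]
      exact le_of_eq (by ring)
    exact_mod_cast this
  have hf3 : (0:ℝ) ≤ ((n - 3).factorial : ℝ) := Nat.cast_nonneg _
  calc ((univ.filter (fun π : Equiv.Perm (Fin n) => ∃ p ∈ E, p.1 = π p.2)).card : ℝ)
      = ∑ π : Equiv.Perm (Fin n), (if ∃ p ∈ E, p.1 = π p.2 then (1:ℝ) else 0) := by
        rw [Finset.natCast_card_filter]
    _ ≤ ∑ π, (((S π).card : ℝ) - (((S π).card : ℝ) ^ 2 - (S π).card) / 2 +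
        ((S π).card : ℝ) * ((S π).card - 1) * ((S π).card - 2) / 6) :=
        Finset.sum_le_sum fun π _ => hpt π
    _ = (∑ π, ((S π).card : ℝ)) - (∑ π, (((S π).card : ℝ) ^ 2 - (S π).card)) / 2 +
        (∑ π, ((S π).card : ℝ) * ((S π).card - 1) * ((S π).card - 2)) / 6 := by
        rw [Finset.sum_add_distrib, Finset.sum_sub_distrib, Finset.sum_div, Finset.sum_div]
    _ ≤ _ := by
        rw [s1, s2, s3]
        have : (T.card : ℝ) * (n - 3).factorial ≤ (E.card : ℝ) ^ 3 * (n - 3).factorial :=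
          mul_le_mul_of_nonneg_right hTc hf3
        linarith
end
end Pool.Agent.H383Rdv

namespace Pool.Agent.H383Rdv
section
open Finset
theorem disjoint_pairs_comp {t : ℕ} {β : Type*} [DecidableEq β] (z : Fin t → β) (F : β → ℤ) :
    ∑ s, F (z s) = ∑ p ∈ univ.image z,
      (((univ : Finset (Fin t)).filter (fun s => z s = p)).card : ℤ) * F p := by
  rw [Finset.sum_comp F z]
  apply Finset.sum_congr rfl
  intro p _
  rw [nsmul_eq_mul]

theorem disjoint_pairs_comp2 {t : ℕ} {β : Type*} [DecidableEq β] (z : Fin t → β) (F : β → β → ℤ) :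
    ∑ s, ∑ s', F (z s) (z s') = ∑ p ∈ univ.image z, ∑ q ∈ univ.image z,
      (((univ : Finset (Fin t)).filter (fun s => z s = p)).card : ℤ) *
      ((((univ : Finset (Fin t)).filter (fun s => z s = q)).card : ℤ) * F p q) := by
  have h1 : ∀ s, ∑ s', F (z s) (z s') = ∑ q ∈ univ.image z,
      (((univ : Finset (Fin t)).filter (fun s => z s = q)).card : ℤ) * F (z s) q := fun s =>
    disjoint_pairs_comp z (F (z s))
  rw [Finset.sum_congr rfl (fun s _ => h1 s),
    disjoint_pairs_comp z (fun p => ∑ q ∈ univ.image z,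
      (((univ : Finset (Fin t)).filter (fun s => z s = q)).card : ℤ) * F p q)]
  apply Finset.sum_congr rfl
  intro p _
  rw [Finset.mul_sum]

theorem disjoint_pairs_card {α : Type*} [Fintype α] (P : α × α → Prop) [DecidablePred P] :
    ((((univ : Finset (α × α)).filter P).card : ℕ) : ℤ) = ∑ s, ∑ s', if P (s, s') then (1:ℤ) else 0 := by
  rw [Finset.card_filter]
  push_cast
  rw [← Finset.univ_product_univ, Finset.sum_product]

theorem disjoint_pairs (n t : ℕ) (x y : Fin t → Fin n) :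
    (((univ : Finset (Fin t × Fin t)).filter (fun u => x u.1 ≠ x u.2 ∧ y u.1 ≠ y u.2)).card : ℤ)
      - 2 * t * (t - ((univ.image (fun s => (x s, y s))).card : ℤ))
      + 2 * (((univ : Finset (Fin t × Fin t)).filter (fun u => u.1 ≠ u.2 ∧ x u.1 = x u.2 ∧ y u.1 = y u.2)).card : ℤ)
    ≤ ((((univ.image (fun s => (x s, y s))) ×ˢ (univ.image (fun s => (x s, y s)))).filter
        (fun q => q.1.1 ≠ q.2.1 ∧ q.1.2 ≠ q.2.2)).card : ℤ) := by
  set z : Fin t → Fin n × Fin n := fun s => (x s, y s) with hz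
  set E := univ.image z with hE
  set m : Fin n × Fin n → ℤ := fun p => (((univ : Finset (Fin t)).filter (fun s => z s = p)).card : ℤ) with hm
  have hm1 : ∀ p ∈ E, 1 ≤ m p := by
    intro p hp
    rw [hE, Finset.mem_image] at hp
    obtain ⟨s, _, hs⟩ := hp
    have : 0 < ((univ : Finset (Fin t)).filter (fun s => z s = p)).card :=
      Finset.card_pos.mpr ⟨s, by simp [hs]⟩
    show (1:ℤ) ≤ (((univ : Finset (Fin t)).filter (fun s => z s = p)).card : ℤ)
    exact_mod_cast this
  -- (a)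
  have hZ : (((univ : Finset (Fin t × Fin t)).filter (fun u => x u.1 ≠ x u.2 ∧ y u.1 ≠ y u.2)).card : ℤ)
      = ∑ p ∈ E, ∑ q ∈ E, m p * (m q * (if p.1 ≠ q.1 ∧ p.2 ≠ q.2 then (1:ℤ) else 0)) := by
    rw [disjoint_pairs_card]
    exact disjoint_pairs_comp2 z (fun p q => if p.1 ≠ q.1 ∧ p.2 ≠ q.2 then (1:ℤ) else 0)
  -- (b)
  have hD : (((E ×ˢ E).filter (fun q => q.1.1 ≠ q.2.1 ∧ q.1.2 ≠ q.2.2)).card : ℤ)
      = ∑ p ∈ E, ∑ q ∈ E, (if p.1 ≠ q.1 ∧ p.2 ≠ q.2 then (1:ℤ) else 0) := by
    rw [Finset.card_filter]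
    push_cast
    rw [Finset.sum_product]
  -- (c)
  have hQ : (((univ : Finset (Fin t × Fin t)).filter (fun u => u.1 ≠ u.2 ∧ x u.1 = x u.2 ∧ y u.1 = y u.2)).card : ℤ) + t
      = ∑ p ∈ E, m p * m p := by
    have h1 : ∑ s, ∑ s', (if z s = z s' then (1:ℤ) else 0) = ∑ p ∈ E, m p * m p := by
      have h2 : ∀ s, ∑ s', (if z s = z s' then (1:ℤ) else 0) = m (z s) := by
        intro s
        show _ = (((univ : Finset (Fin t)).filter (fun s' => z s' = z s)).card : ℤ)
        rw [Finset.card_filter]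
        push_cast
        apply Finset.sum_congr rfl
        intro s' _
        simp only [eq_comm]
      rw [Finset.sum_congr rfl (fun s _ => h2 s)]
      exact disjoint_pairs_comp z m
    rw [← h1, disjoint_pairs_card]
    have h3 : (t : ℤ) = ∑ s : Fin t, ∑ s' : Fin t, (if s = s' then (1:ℤ) else 0) := by
      simp
    rw [h3, ← Finset.sum_add_distrib]
    apply Finset.sum_congr rfl
    intro s _
    rw [← Finset.sum_add_distrib]
    apply Finset.sum_congr rfl
    intro s' _
    by_cases hss : s = s'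
    · subst hss
      simp
    · by_cases hzz : z s = z s'
      · have hx : x s = x s' := congrArg Prod.fst hzz
        have hy : y s = y s' := congrArg Prod.snd hzz
        simp [hss, hzz, hx, hy]
      · have : ¬ (x s = x s' ∧ y s = y s') := fun h => hzz (Prod.ext h.1 h.2)
        simp only [hss, hzz, ne_eq, not_false_eq_true, true_and, this, if_false, add_zero]
  -- (d)
  have hT : ∑ p ∈ E, m p = t := by
    have h := disjoint_pairs_comp z (fun _ => (1:ℤ))
    simp only [Finset.sum_const, Finset.card_univ, Fintype.card_fin, nsmul_eq_mul, mul_one] at h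
    exact h.symm
  rw [hZ, hD]
  have key : ∀ p ∈ E, ∀ q ∈ E,
      m p * (m q * (if p.1 ≠ q.1 ∧ p.2 ≠ q.2 then (1:ℤ) else 0)) - (if p.1 ≠ q.1 ∧ p.2 ≠ q.2 then (1:ℤ) else 0)
      ≤ ((m p - 1) * m q + (m q - 1) * m p) - (if p = q then 2 * ((m p - 1) * m p) else 0) := by
    intro p hp q hq
    have h1 := hm1 p hp
    have h2 := hm1 q hq
    have h3 : 0 ≤ (m p - 1) * m q := mul_nonneg (by linarith) (by linarith)
    have h4 : 0 ≤ (m q - 1) * m p := mul_nonneg (by linarith) (by linarith)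
    have h5 : 0 ≤ (m p - 1) * (m q - 1) := mul_nonneg (by linarith) (by linarith)
    by_cases hpq : p = q
    · subst hpq
      simp
      linarith
    · rw [if_neg hpq]
      split_ifs
      · linarith
      · linarith
  have hsum := Finset.sum_le_sum (fun p hp => Finset.sum_le_sum (fun q hq => key p hp q hq))
  simp only [Finset.sum_sub_distrib, Finset.sum_add_distrib] at hsum
  have e1 : ∑ p ∈ E, ∑ q ∈ E, (m p - 1) * m q = (t - (E.card : ℤ)) * t := by
    simp only [← Finset.mul_sum, ← Finset.sum_mul, hT, Finset.sum_sub_distrib, Finset.sum_const,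
      nsmul_eq_mul, mul_one]
  have e2 : ∑ p ∈ E, ∑ q ∈ E, (m q - 1) * m p = (t - (E.card : ℤ)) * t := by
    rw [Finset.sum_comm]
    exact e1
  have e3 : ∑ p ∈ E, ∑ q ∈ E, (if p = q then 2 * ((m p - 1) * m p) else 0)
      = 2 * (∑ p ∈ E, m p * m p - t) := by
    have h1 : ∀ p ∈ E, ∑ q ∈ E, (if p = q then 2 * ((m p - 1) * m p) else 0) = 2 * (m p * m p - m p) := by
      intro p hp
      rw [Finset.sum_ite_eq, if_pos hp]
      ring
    rw [Finset.sum_congr rfl h1, ← Finset.mul_sum, Finset.sum_sub_distrib, hT]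
  rw [e1, e2, e3, ← hQ] at hsum
  linarith
end
end Pool.Agent.H383Rdv

namespace Pool.Agent.H383Rdv
section
open Finset
theorem equal_pairs (n t : ℕ) (x y : Fin t → Fin n) :
    (((univ : Finset (Fin t × Fin t)).filter (fun u => u.1 ≠ u.2 ∧ x u.1 = x u.2 ∧ y u.1 = y u.2)).card : ℤ)
      ≤ t * (t - ((univ.image (fun s => (x s, y s))).card : ℤ)) := by
  have h1 : ((univ : Finset (Fin t × Fin t)).filter
      (fun u => u.1 ≠ u.2 ∧ x u.1 = x u.2 ∧ y u.1 = y u.2)).card =
      ∑ s : Fin t, ((univ : Finset (Fin t)).filter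
        (fun s' => s ≠ s' ∧ x s = x s' ∧ y s = y s')).card := by
    rw [Finset.card_filter, Fintype.sum_prod_type]
    refine Finset.sum_congr rfl fun s _ => ?_
    rw [Finset.card_filter]
  have h2 : ∀ s : Fin t, ((univ : Finset (Fin t)).filter
        (fun s' => s ≠ s' ∧ x s = x s' ∧ y s = y s')).card +
        (univ.image (fun s => (x s, y s))).card ≤ t := by
    intro s
    have h3 : (univ.image (fun s => (x s, y s))) ⊆
        ((univ : Finset (Fin t)) \ (univ.filter
        (fun s' => s ≠ s' ∧ x s = x s' ∧ y s = y s'))).image (fun s => (x s, y s)) := by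
      intro q hq
      obtain ⟨r, -, rfl⟩ := Finset.mem_image.1 hq
      by_cases hr : s ≠ r ∧ x s = x r ∧ y s = y r
      · refine Finset.mem_image.2 ⟨s, ?_, ?_⟩
        · simp
        · rw [hr.2.1, hr.2.2]
      · refine Finset.mem_image.2 ⟨r, ?_, rfl⟩
        rw [Finset.mem_sdiff, Finset.mem_filter]
        exact ⟨Finset.mem_univ _, fun h => hr h.2⟩
    have h4 := (Finset.card_le_card h3).trans Finset.card_image_le
    rw [Finset.card_sdiff_of_subset (Finset.subset_univ _), Finset.card_univ, Fintype.card_fin] at h4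
    have h5 : ((univ : Finset (Fin t)).filter
        (fun s' => s ≠ s' ∧ x s = x s' ∧ y s = y s')).card ≤ t := by
      have := Finset.card_le_univ ((univ : Finset (Fin t)).filter
        (fun s' => s ≠ s' ∧ x s = x s' ∧ y s = y s'))
      rwa [Fintype.card_fin] at this
    omega
  rw [h1]
  push_cast
  calc ∑ s : Fin t, ((((univ : Finset (Fin t)).filter
        (fun s' => s ≠ s' ∧ x s = x s' ∧ y s = y s')).card : ℕ) : ℤ)
      ≤ ∑ s : Fin t, ((t : ℤ) - ((univ.image (fun s => (x s, y s))).card : ℤ)) := by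
        refine Finset.sum_le_sum fun s _ => ?_
        have := h2 s
        zify at this
        linarith
    _ = _ := by
        rw [Finset.sum_const, Finset.card_univ, Fintype.card_fin, nsmul_eq_mul]
end
end Pool.Agent.H383Rdv

namespace Pool.Agent.H383Rdv
section
open Finset
theorem expect_bound (n t : ℕ) (ν : (Fin t → Fin n) → ℝ) (hν : ∀ x, 0 ≤ ν x) (hsum : ∑ x, ν x = 1)
    (c : ℝ) (hc : 0 < c) :
    (t : ℝ) * (t - 1) * (c / (1 + 2 * c)) ≤
      ∑ x, ∑ y, ν x * ν y *
        ((((univ : Finset (Fin t × Fin t)).filter (fun u => x u.1 ≠ x u.2 ∧ y u.1 ≠ y u.2)).card : ℝ) / 2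
          + c * (((univ : Finset (Fin t × Fin t)).filter
              (fun u => u.1 ≠ u.2 ∧ x u.1 = x u.2 ∧ y u.1 = y u.2)).card : ℝ)) := by
  classical
  have _ := hν
  obtain ⟨a, ha⟩ : ∃ a : Fin t × Fin t → (Fin t → Fin n) → ℝ,
      a = fun u x => if x u.1 = x u.2 then (1:ℝ) else 0 := ⟨_, rfl⟩
  obtain ⟨th, hth⟩ : ∃ th : Fin t × Fin t → ℝ, th = fun u => ∑ x, ν x * a u x := ⟨_, rfl⟩
  have hth' : ∀ u, ∑ x, ν x * (1 - a u x) = 1 - th u := by
    intro u
    simp only [mul_sub, mul_one, Finset.sum_sub_distrib, hsum, hth]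
  have c1 : ∀ x y : Fin t → Fin n,
      (((univ : Finset (Fin t × Fin t)).filter (fun u => x u.1 ≠ x u.2 ∧ y u.1 ≠ y u.2)).card : ℝ)
        = ∑ u : Fin t × Fin t, (1 - a u x) * (1 - a u y) := by
    intro x y
    rw [Finset.card_filter]
    push_cast
    refine Finset.sum_congr rfl fun u _ => ?_
    rw [ha]
    by_cases h1 : x u.1 = x u.2 <;> by_cases h2 : y u.1 = y u.2 <;> simp [h1, h2]
  have c2 : ∀ x y : Fin t → Fin n,
      (((univ : Finset (Fin t × Fin t)).filter
        (fun u => u.1 ≠ u.2 ∧ x u.1 = x u.2 ∧ y u.1 = y u.2)).card : ℝ)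
        = ∑ u : Fin t × Fin t, (if u.1 ≠ u.2 then a u x * a u y else 0) := by
    intro x y
    rw [Finset.card_filter]
    push_cast
    refine Finset.sum_congr rfl fun u _ => ?_
    rw [ha]
    by_cases h0 : u.1 = u.2 <;> by_cases h1 : x u.1 = x u.2 <;> by_cases h2 : y u.1 = y u.2 <;>
      simp [h0, h1, h2]
  have e1 : ∀ u, ∑ x, ∑ y, ν x * ν y * ((1 - a u x) * (1 - a u y)) = (1 - th u) ^ 2 := by
    intro u
    rw [sq, ← hth' u, Finset.sum_mul_sum]
    refine Finset.sum_congr rfl fun x _ => Finset.sum_congr rfl fun y _ => ?_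
    ring
  have e2 : ∀ u, ∑ x, ∑ y, ν x * ν y * (a u x * a u y) = (th u) ^ 2 := by
    intro u
    rw [sq, hth, Finset.sum_mul_sum]
    refine Finset.sum_congr rfl fun x _ => Finset.sum_congr rfl fun y _ => ?_
    ring
  have hR : ∑ x, ∑ y, ν x * ν y *
        ((((univ : Finset (Fin t × Fin t)).filter (fun u => x u.1 ≠ x u.2 ∧ y u.1 ≠ y u.2)).card : ℝ) / 2
          + c * (((univ : Finset (Fin t × Fin t)).filter
              (fun u => u.1 ≠ u.2 ∧ x u.1 = x u.2 ∧ y u.1 = y u.2)).card : ℝ))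
      = ∑ u : Fin t × Fin t, ((1 - th u) ^ 2 / 2 + c * (if u.1 ≠ u.2 then (th u) ^ 2 else 0)) := by
    have : ∀ x y : Fin t → Fin n, ν x * ν y *
        ((((univ : Finset (Fin t × Fin t)).filter (fun u => x u.1 ≠ x u.2 ∧ y u.1 ≠ y u.2)).card : ℝ) / 2
          + c * (((univ : Finset (Fin t × Fin t)).filter
              (fun u => u.1 ≠ u.2 ∧ x u.1 = x u.2 ∧ y u.1 = y u.2)).card : ℝ))
        = ∑ u : Fin t × Fin t, (ν x * ν y * ((1 - a u x) * (1 - a u y)) / 2
          + c * (if u.1 ≠ u.2 then ν x * ν y * (a u x * a u y) else 0)) := by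
      intro x y
      rw [c1, c2, Finset.sum_div, Finset.mul_sum, ← Finset.sum_add_distrib, Finset.mul_sum]
      refine Finset.sum_congr rfl fun u _ => ?_
      split_ifs <;> ring
    simp only [this]
    have sw : ∀ x : Fin t → Fin n, ∑ y, ∑ u : Fin t × Fin t,
        (ν x * ν y * ((1 - a u x) * (1 - a u y)) / 2
          + c * (if u.1 ≠ u.2 then ν x * ν y * (a u x * a u y) else 0))
        = ∑ u : Fin t × Fin t, ∑ y, (ν x * ν y * ((1 - a u x) * (1 - a u y)) / 2
          + c * (if u.1 ≠ u.2 then ν x * ν y * (a u x * a u y) else 0)) :=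
      fun x => Finset.sum_comm
    simp only [sw]
    rw [Finset.sum_comm]
    refine Finset.sum_congr rfl fun u _ => ?_
    simp only [Finset.sum_add_distrib]
    congr 1
    · simp only [← Finset.sum_div]
      rw [e1]
    · simp only [← Finset.mul_sum]
      congr 1
      split_ifs with h
      · exact e2 u
      · simp
  rw [hR]
  have hk : ∀ u : Fin t × Fin t, (if u.1 ≠ u.2 then c / (1 + 2 * c) else 0) ≤
      ((1 - th u) ^ 2 / 2 + c * (if u.1 ≠ u.2 then (th u) ^ 2 else 0)) := by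
    intro u
    split_ifs with h
    · have h1 : 0 < 1 + 2 * c := by linarith
      have h2 : (1 - th u) ^ 2 / 2 + c * th u ^ 2 - c / (1 + 2 * c)
          = ((1 + 2 * c) * th u - 1) ^ 2 / (2 * (1 + 2 * c)) := by
        field_simp
        ring
      have h3 : 0 ≤ ((1 + 2 * c) * th u - 1) ^ 2 / (2 * (1 + 2 * c)) := by positivity
      linarith
    · have := sq_nonneg (1 - th u)
      linarith
  refine le_trans (le_of_eq ?_) (Finset.sum_le_sum fun u _ => hk u)
  rw [Fintype.sum_prod_type]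
  have hs : ∀ s : Fin t, ∑ s' : Fin t, (if (s, s').1 ≠ (s, s').2 then c / (1 + 2 * c) else 0)
      = (t - 1) * (c / (1 + 2 * c)) := by
    intro s
    have : ∀ s' : Fin t, (if (s, s').1 ≠ (s, s').2 then c / (1 + 2 * c) else 0)
        = c / (1 + 2 * c) - (if s = s' then c / (1 + 2 * c) else 0) := by
      intro s'
      by_cases h : s = s' <;> simp [h]
    simp only [this, Finset.sum_sub_distrib, Finset.sum_const, Finset.card_univ, Fintype.card_fin,
      nsmul_eq_mul, Finset.sum_ite_eq, Finset.mem_univ, if_true]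
    ring
  simp only [hs, Finset.sum_const, Finset.card_univ, Fintype.card_fin, nsmul_eq_mul]
  ring
end
end Pool.Agent.H383Rdv

namespace Pool.Agent.H383Rdv
section
open MeasureTheory
theorem bridge (n t : ℕ) (μ : Measure (ℕ → Fin n)) [IsProbabilityMeasure μ]
    (f : (Fin t → Fin n) → (Fin t → Fin n) → ENNReal) :
    ∫⁻ p : (ℕ → Fin n) × (ℕ → Fin n), f (fun s => p.1 s) (fun s => p.2 s) ∂(μ.prod μ)
      = ∑ x : Fin t → Fin n, ∑ y : Fin t → Fin n,
          μ {z | ∀ s : Fin t, z s = x s} * μ {z | ∀ s : Fin t, z s = y s} * f x y := by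
  have hr : Measurable (fun (z : ℕ → Fin n) => (fun s : Fin t => z s)) :=
    measurable_pi_lambda _ (fun s => measurable_pi_apply _)
  set r : (ℕ → Fin n) → (Fin t → Fin n) := fun z => fun s : Fin t => z s with hrdef
  have hmap : (μ.map r).prod (μ.map r) = (μ.prod μ).map (Prod.map r r) :=
    Measure.map_prod_map μ μ hr hr
  have hf : Measurable (fun q : (Fin t → Fin n) × (Fin t → Fin n) => f q.1 q.2) :=
    measurable_of_countable _
  have h1 : ∫⁻ p : (ℕ → Fin n) × (ℕ → Fin n), f (fun s => p.1 s) (fun s => p.2 s) ∂(μ.prod μ)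
      = ∫⁻ q : (Fin t → Fin n) × (Fin t → Fin n), f q.1 q.2 ∂((μ.map r).prod (μ.map r)) := by
    rw [hmap, lintegral_map hf (hr.prodMap hr)]
    rfl
  rw [h1, lintegral_fintype, Fintype.sum_prod_type]
  refine Finset.sum_congr rfl fun x _ => Finset.sum_congr rfl fun y _ => ?_
  have hS : ∀ x : Fin t → Fin n, μ.map r {x} = μ {z | ∀ s : Fin t, z s = x s} := by
    intro x
    rw [Measure.map_apply hr (measurableSet_singleton x)]
    congr 1
    ext z
    simp only [Set.mem_preimage, Set.mem_singleton_iff, Set.mem_setOf_eq, hrdef]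
    exact funext_iff
  have h2 : ({(x, y)} : Set ((Fin t → Fin n) × (Fin t → Fin n))) = {x} ×ˢ {y} := by
    rw [Set.singleton_prod_singleton]
  have : IsProbabilityMeasure (μ.map r) := Measure.isProbabilityMeasure_map hr.aemeasurable
  rw [h2, Measure.prod_prod, hS, hS, mul_comm]
end
end Pool.Agent.H383Rdv

namespace Pool.Agent.H383Rdv
section

theorem sl_poly (a b c d e : ℝ) (m : ℕ) :
    ∑ t ∈ Finset.range m, (a + b * (t : ℝ) + c * (t : ℝ)^2 + d * (t : ℝ)^3 + e * (t : ℝ)^4) =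
      a * m + b * (m * (m - 1) / 2) + c * ((m - 1) * m * (2 * m - 1) / 6)
        + d * (m * (m - 1) / 2)^2 + e * ((m - 1) * m * (2 * m - 1) * (3 * m^2 - 3 * m - 1) / 30) := by
  induction m with
  | zero => simp
  | succ m ih =>
    rw [Finset.sum_range_succ, ih]
    push_cast
    ring

theorem sl_q (N t : ℝ) (hN : 0 < N) (ht0 : 0 ≤ t) (htN : t ≤ N) :
    1 / (2 * N) - t / (4 * N^2) + t^2 / (12 * N^3) ≤ 1 / (t + 2 * N) := by
  rw [le_div_iff₀ (by positivity)]
  have e : (1 / (2 * N) - t / (4 * N^2) + t^2 / (12 * N^3)) * (t + 2 * N) =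
      1 - t^2 * (N - t) / (12 * N^3) := by
    field_simp
    ring
  rw [e]
  have : 0 ≤ t^2 * (N - t) / (12 * N^3) := by
    apply div_nonneg
    · exact mul_nonneg (sq_nonneg t) (by linarith)
    · positivity
  linarith

theorem sl_first (n : ℕ) (hn : 3 ≤ n) :
    (139 / 240 : ℝ) * n + 47 / 240 - 1 / (12 * ((n : ℝ) - 2)) ≤
      ∑ t ∈ Finset.range n, (1 - (t : ℝ) / n + ((t : ℝ) * (t - 1) / (n * (t + 2 * n - 2)) - (t : ℝ) ^ 3 / (6 * n * (n - 1) * (n - 2)))) := by
  obtain ⟨x, hx⟩ : ∃ x : ℝ, x = (n : ℝ) - 2 := ⟨_, rfl⟩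
  have hn3 : (3 : ℝ) ≤ n := by exact_mod_cast hn
  have hx1 : 1 ≤ x := by linarith
  have hnx : (n : ℝ) = x + 2 := by linarith
  have hterm : ∑ t ∈ Finset.range n, (1 + (-(1 / (n:ℝ)) - (1 / (2 * ((n:ℝ) - 1))) / n) * (t : ℝ)
      + ((1 / (2 * ((n:ℝ) - 1)) + 1 / (4 * ((n:ℝ) - 1)^2)) / n) * (t : ℝ)^2
      + ((-(1 / (4 * ((n:ℝ) - 1)^2)) - 1 / (12 * ((n:ℝ) - 1)^3)) / n - 1 / (6 * n * (n - 1) * (n - 2))) * (t : ℝ)^3
      + ((1 / (12 * ((n:ℝ) - 1)^3)) / n) * (t : ℝ)^4) ≤
      ∑ t ∈ Finset.range n, (1 - (t : ℝ) / n + ((t : ℝ) * (t - 1) / (n * (t + 2 * n - 2)) - (t : ℝ) ^ 3 / (6 * n * (n - 1) * (n - 2)))) := by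
    apply Finset.sum_le_sum
    intro t ht
    have htn : t < n := Finset.mem_range.mp ht
    have htN : (t : ℝ) ≤ (n : ℝ) - 1 := by
      have : (t : ℝ) + 1 ≤ n := by exact_mod_cast htn
      linarith
    have hN : (0:ℝ) < (n:ℝ) - 1 := by linarith
    have hq := sl_q ((n:ℝ) - 1) t hN (by positivity) htN
    have htt : 0 ≤ (t : ℝ) * (t - 1) / n := by
      apply div_nonneg _ (by positivity)
      rcases Nat.eq_zero_or_pos t with h | h
      · rw [h]; simp
      · have : (1 : ℝ) ≤ t := by exact_mod_cast h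
        exact mul_nonneg (by positivity) (by linarith)
    have h2 := mul_le_mul_of_nonneg_left hq htt
    have e1 : (t : ℝ) * (t - 1) / n * (1 / ((t:ℝ) + 2 * ((n:ℝ) - 1))) = (t : ℝ) * (t - 1) / (n * (t + 2 * n - 2)) := by
      have : ((t:ℝ) + 2 * ((n:ℝ) - 1)) = (t + 2 * n - 2) := by ring
      rw [this, div_mul_div_comm, mul_one]
    rw [e1] at h2
    have e2 : (1 + (-(1 / (n:ℝ)) - (1 / (2 * ((n:ℝ) - 1))) / n) * (t : ℝ)
      + ((1 / (2 * ((n:ℝ) - 1)) + 1 / (4 * ((n:ℝ) - 1)^2)) / n) * (t : ℝ)^2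
      + ((-(1 / (4 * ((n:ℝ) - 1)^2)) - 1 / (12 * ((n:ℝ) - 1)^3)) / n - 1 / (6 * n * (n - 1) * (n - 2))) * (t : ℝ)^3
      + ((1 / (12 * ((n:ℝ) - 1)^3)) / n) * (t : ℝ)^4) =
      1 - (t : ℝ) / n + ((t : ℝ) * (t - 1) / n * (1 / (2 * ((n:ℝ) - 1)) - t / (4 * ((n:ℝ) - 1)^2) + t^2 / (12 * ((n:ℝ) - 1)^3))
        - (t : ℝ) ^ 3 / (6 * n * (n - 1) * (n - 2))) := by
      ring
    rw [e2]
    linarith
  refine le_trans ?_ hterm
  rw [sl_poly]
  rw [hnx]
  have h1 : x + 2 - 1 = x + 1 := by ring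
  have h2 : x + 2 - 2 = x := by ring
  rw [h1, h2]
  have hx0 : 0 < x := by linarith
  rw [← sub_nonneg]
  have e3 : 1 * (x + 2) + (-(1 / (x + 2)) - 1 / (2 * (x + 1)) / (x + 2)) * ((x + 2) * (x + 1) / 2) +
          (1 / (2 * (x + 1)) + 1 / (4 * (x + 1) ^ 2)) / (x + 2) * ((x + 1) * (x + 2) * (2 * (x + 2) - 1) / 6) +
        ((-(1 / (4 * (x + 1) ^ 2)) - 1 / (12 * (x + 1) ^ 3)) / (x + 2) - 1 / (6 * (x + 2) * (x + 1) * x)) *
          ((x + 2) * (x + 1) / 2) ^ 2 +
      1 / (12 * (x + 1) ^ 3) / (x + 2) *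
        ((x + 1) * (x + 2) * (2 * (x + 2) - 1) * (3 * (x + 2) ^ 2 - 3 * (x + 2) - 1) / 30) -
    (139 / 240 * (x + 2) + 47 / 240 - 1 / (12 * x)) = 1 / (48 * (x + 1)) + x / (360 * (x + 1)^2) := by
    field_simp
    ring
  rw [e3]
  positivity

theorem sl_second (n k r : ℕ) (hnk : n = 6 * k + r) (hr : r < 6) (hn : 3 ≤ n) :
    ((n : ℝ) - 2) / 72 - 17 / (72 * ((n : ℝ) - 2)) ≤
      ∑ i ∈ Finset.range k, ((((n : ℝ) - 1) * (n - 2) / (n * (3 * n - 3)) - ((n : ℝ) - 1) ^ 3 / (6 * n * (n - 1) * (n - 2))) - (i : ℝ) / n) := by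
  have hn3 : (3 : ℝ) ≤ n := by exact_mod_cast hn
  obtain ⟨x, hx⟩ : ∃ x : ℝ, x = (n : ℝ) - 2 := ⟨_, rfl⟩
  have hx1 : 1 ≤ x := by linarith
  have hnx : (n : ℝ) = x + 2 := by linarith
  have hsum : ∑ i ∈ Finset.range k, ((((n : ℝ) - 1) * (n - 2) / (n * (3 * n - 3)) - ((n : ℝ) - 1) ^ 3 / (6 * n * (n - 1) * (n - 2))) - (i : ℝ) / n) =
      ((((n : ℝ) - 1) * (n - 2) / (n * (3 * n - 3)) - ((n : ℝ) - 1) ^ 3 / (6 * n * (n - 1) * (n - 2)))) * k + (-(1 / (n:ℝ))) * (k * (k - 1) / 2) := by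
    have h := sl_poly ((((n : ℝ) - 1) * (n - 2) / (n * (3 * n - 3)) - ((n : ℝ) - 1) ^ 3 / (6 * n * (n - 1) * (n - 2)))) (-(1 / (n:ℝ))) 0 0 0 k
    simp only [zero_mul, add_zero] at h
    rw [← h]
    apply Finset.sum_congr rfl
    intro i _
    ring
  rw [hsum]
  have hk : (k : ℝ) = (x + 2 - r) / 6 := by
    have : (n : ℝ) = 6 * k + r := by exact_mod_cast hnk
    rw [hnx] at this
    linarith
  rw [hk, hnx]
  have h1 : x + 2 - 1 = x + 1 := by ring
  have h2 : x + 2 - 2 = x := by ring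
  have h3 : 3 * (x + 2) - 3 = 3 * (x + 1) := by ring
  rw [h1, h2, h3]
  have hx0 : 0 < x := by linarith
  rw [← sub_nonneg]
  have e : ((x + 1) * x / ((x + 2) * (3 * (x + 1))) - (x + 1) ^ 3 / (6 * (x + 2) * (x + 1) * x)) * ((x + 2 - (r:ℝ)) / 6) +
      -(1 / (x + 2)) * ((x + 2 - (r:ℝ)) / 6 * ((x + 2 - (r:ℝ)) / 6 - 1) / 2) - (x / 72 - 17 / (72 * x)) =
      (15 * (x + 2) + 2 * r - x * (r * (r - 2))) / (72 * (x + 2) * x) := by
    field_simp
    ring
  rw [e]
  apply div_nonneg _ (by positivity)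
  interval_cases r <;> push_cast <;> nlinarith

theorem sum_lower (n : ℕ) (hn : 3 ≤ n) :
    (59 / 100 : ℝ) * n ≤
      (∑ t ∈ Finset.range n, (1 - (t : ℝ) / n + ((t : ℝ) * (t - 1) / (n * (t + 2 * n - 2)) - (t : ℝ) ^ 3 / (6 * n * (n - 1) * (n - 2)))))
      + ∑ i ∈ Finset.range (n / 6), ((((n : ℝ) - 1) * (n - 2) / (n * (3 * n - 3)) - ((n : ℝ) - 1) ^ 3 / (6 * n * (n - 1) * (n - 2))) - (i : ℝ) / n) := by
  have h1 := sl_first n hn
  have hn3 : (3 : ℝ) ≤ n := by exact_mod_cast hn
  have hx0 : (0:ℝ) < (n:ℝ) - 2 := by linarith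
  by_cases h6 : n < 6
  · have hk : n / 6 = 0 := by omega
    rw [hk, Finset.sum_range_zero, add_zero]
    refine le_trans ?_ h1
    have h2 : (1:ℝ) / (12 * ((n : ℝ) - 2)) ≤ 1 / 12 := by
      apply div_le_div_of_nonneg_left (by norm_num) (by norm_num)
      linarith
    have h3 : (n : ℝ) ≤ 5 := by exact_mod_cast (by omega : n ≤ 5)
    linarith
  · have h2 := sl_second n (n / 6) (n % 6) (by omega) (by omega) hn
    have h4 : (6:ℝ) ≤ n := by exact_mod_cast (by omega : 6 ≤ n)
    have h5 : (1:ℝ) / (12 * ((n : ℝ) - 2)) ≤ 1 / 48 := by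
      apply div_le_div_of_nonneg_left (by norm_num) (by norm_num)
      linarith
    have h7 : (17:ℝ) / (72 * ((n : ℝ) - 2)) ≤ 17 / 288 := by
      apply div_le_div_of_nonneg_left (by norm_num) (by norm_num)
      linarith
    linarith
end
end Pool.Agent.H383Rdv

namespace Pool.Agent.H383Rdv
section
open MeasureTheory
theorem exp_ge (n M : ℕ) (μ : Measure (ℕ → Fin n)) [IsProbabilityMeasure μ] :
    ∑ t ∈ Finset.range M, ∑ π : Equiv.Perm (Fin n),
        (μ.prod μ) {p : (ℕ → Fin n) × (ℕ → Fin n) | ∀ s < t, p.1 s ≠ π (p.2 s)}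
      ≤ ∑ π : Equiv.Perm (Fin n), ∫⁻ p : (ℕ → Fin n) × (ℕ → Fin n),
          (⨅ (t : ℕ) (_ : p.1 t = π (p.2 t)), ((t : ENNReal) + 1)) ∂(μ.prod μ) := by
  rw [Finset.sum_comm]
  apply Finset.sum_le_sum
  intro π _
  set A : ℕ → Set ((ℕ → Fin n) × (ℕ → Fin n)) := fun t => {p | ∀ s < t, p.1 s ≠ π (p.2 s)} with hAdef
  have hA : ∀ t, MeasurableSet (A t) := by
    intro t
    have h1 : A t = ⋂ s : ℕ, ⋂ _ : s < t, {p : (ℕ → Fin n) × (ℕ → Fin n) | p.1 s = π (p.2 s)}ᶜ := by
      ext p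
      simp [hAdef]
    rw [h1]
    refine MeasurableSet.iInter fun s => MeasurableSet.iInter fun _ => ?_
    apply MeasurableSet.compl
    have h2 : Measurable (fun p : (ℕ → Fin n) × (ℕ → Fin n) => p.1 s) :=
      (measurable_pi_apply s).comp measurable_fst
    have h3 : Measurable (fun p : (ℕ → Fin n) × (ℕ → Fin n) => π (p.2 s)) :=
      (measurable_of_finite π).comp ((measurable_pi_apply s).comp measurable_snd)
    exact measurableSet_eq_fun h2 h3
  calc ∑ t ∈ Finset.range M, (μ.prod μ) (A t)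
      = ∑ t ∈ Finset.range M, ∫⁻ p, (A t).indicator 1 p ∂(μ.prod μ) := by
        refine Finset.sum_congr rfl fun t _ => ?_
        rw [lintegral_indicator_one (hA t)]
    _ = ∫⁻ p, ∑ t ∈ Finset.range M, (A t).indicator 1 p ∂(μ.prod μ) := by
        rw [lintegral_finsetSum]
        intro t _
        exact measurable_one.indicator (hA t)
    _ ≤ ∫⁻ p : (ℕ → Fin n) × (ℕ → Fin n),
          (⨅ (t : ℕ) (_ : p.1 t = π (p.2 t)), ((t : ENNReal) + 1)) ∂(μ.prod μ) := by
        apply lintegral_mono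
        intro p
        refine le_iInf₂ fun t₀ h₀ => ?_
        have hle : ∀ t ∈ Finset.range M, (A t).indicator (1 : (ℕ → Fin n) × (ℕ → Fin n) → ENNReal) p
            ≤ if t < t₀ + 1 then 1 else 0 := by
          intro t _
          by_cases ht : t < t₀ + 1
          · rw [if_pos ht]
            by_cases hp : p ∈ A t
            · rw [Set.indicator_of_mem hp]
              simp
            · rw [Set.indicator_of_notMem hp]
              exact bot_le
          · rw [if_neg ht]
            have hp : p ∉ A t := by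
              intro hp
              exact hp t₀ (by omega) h₀
            rw [Set.indicator_of_notMem hp]
        calc ∑ t ∈ Finset.range M, (A t).indicator 1 p
            ≤ ∑ t ∈ Finset.range M, (if t < t₀ + 1 then (1 : ENNReal) else 0) :=
              Finset.sum_le_sum hle
          _ = (((Finset.range M).filter (fun t => t < t₀ + 1)).card : ENNReal) := by
              rw [Finset.sum_ite]
              simp
          _ ≤ ((t₀ + 1 : ℕ) : ENNReal) := by
              have : ((Finset.range M).filter (fun t => t < t₀ + 1)).card ≤ t₀ + 1 := by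
                calc ((Finset.range M).filter (fun t => t < t₀ + 1)).card
                    ≤ (Finset.range (t₀ + 1)).card := by
                      apply Finset.card_le_card
                      intro t ht
                      simp only [Finset.mem_filter, Finset.mem_range] at ht ⊢
                      exact ht.2
                  _ = t₀ + 1 := Finset.card_range _
              exact_mod_cast this
          _ = (t₀ : ENNReal) + 1 := by push_cast; rfl
end
end Pool.Agent.H383Rdv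

namespace Pool.Agent.H383Rdv
section
open MeasureTheory Finset
theorem P_eq (n t : ℕ) (μ : Measure (ℕ → Fin n)) [IsProbabilityMeasure μ]
    (hb : ∀ f : (Fin t → Fin n) → (Fin t → Fin n) → ENNReal,
      ∫⁻ p : (ℕ → Fin n) × (ℕ → Fin n), f (fun s => p.1 s) (fun s => p.2 s) ∂(μ.prod μ)
      = ∑ x : Fin t → Fin n, ∑ y : Fin t → Fin n,
          μ {z | ∀ s : Fin t, z s = x s} * μ {z | ∀ s : Fin t, z s = y s} * f x y) :
    (∑ x : Fin t → Fin n, (μ {z | ∀ s : Fin t, z s = x s}).toReal = 1) ∧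
    (∑ π : Equiv.Perm (Fin n),
        ((μ.prod μ) {p : (ℕ → Fin n) × (ℕ → Fin n) | ∀ s < t, p.1 s ≠ π (p.2 s)}).toReal
      = ∑ x : Fin t → Fin n, ∑ y : Fin t → Fin n,
          (μ {z | ∀ s : Fin t, z s = x s}).toReal * (μ {z | ∀ s : Fin t, z s = y s}).toReal *
            ((n.factorial : ℝ) -
              ((univ.filter (fun π : Equiv.Perm (Fin n) => ∃ s : Fin t, x s = π (y s))).card : ℝ))) := by
  classical
  constructor
  · have hg : Measurable (fun (z : ℕ → Fin n) (s : Fin t) => z s) :=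
      measurable_pi_lambda _ (fun s => measurable_pi_apply _)
    have h1 := sum_measure_preimage_singleton (μ := μ) (Finset.univ : Finset (Fin t → Fin n))
      (f := fun (z : ℕ → Fin n) (s : Fin t) => z s) (fun y _ => hg (measurableSet_singleton y))
    have h2 : ∀ x : Fin t → Fin n, (fun (z : ℕ → Fin n) (s : Fin t) => z s) ⁻¹' {x}
        = {z | ∀ s : Fin t, z s = x s} := by
      intro x
      ext z
      simp [funext_iff]
    simp only [h2, Finset.coe_univ, Set.preimage_univ, measure_univ] at h1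
    rw [← ENNReal.toReal_sum (fun x _ => measure_ne_top _ _), h1]
    simp
  · have key : ∀ π : Equiv.Perm (Fin n),
        ((μ.prod μ) {p : (ℕ → Fin n) × (ℕ → Fin n) | ∀ s < t, p.1 s ≠ π (p.2 s)}).toReal
        = ∑ x : Fin t → Fin n, ∑ y : Fin t → Fin n,
          (μ {z | ∀ s : Fin t, z s = x s}).toReal * (μ {z | ∀ s : Fin t, z s = y s}).toReal *
            (if ∀ s : Fin t, x s ≠ π (y s) then (1:ℝ) else 0) := by
      intro π
      have hset : {p : (ℕ → Fin n) × (ℕ → Fin n) | ∀ s < t, p.1 s ≠ π (p.2 s)}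
          = {p | ∀ s : Fin t, p.1 s ≠ π (p.2 s)} := by
        apply Set.ext
        intro p
        constructor
        · intro h s
          exact h s s.2
        · intro h s hs
          exact h ⟨s, hs⟩
      have hms : MeasurableSet {p : (ℕ → Fin n) × (ℕ → Fin n) |
          ∀ s : Fin t, p.1 s ≠ π (p.2 s)} := by
        have : {p : (ℕ → Fin n) × (ℕ → Fin n) | ∀ s : Fin t, p.1 s ≠ π (p.2 s)}
            = ⋂ s : Fin t, {p | p.1 s = π (p.2 s)}ᶜ := by
          ext p
          simp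
        rw [this]
        refine MeasurableSet.iInter fun s => MeasurableSet.compl ?_
        refine measurableSet_eq_fun ?_ ?_
        · exact (measurable_pi_apply _).comp measurable_fst
        · exact (measurable_of_countable π).comp ((measurable_pi_apply _).comp measurable_snd)
      have h1 := hb (fun x y => if ∀ s : Fin t, x s ≠ π (y s) then 1 else 0)
      have h2 : (μ.prod μ) {p : (ℕ → Fin n) × (ℕ → Fin n) | ∀ s : Fin t, p.1 s ≠ π (p.2 s)}
          = ∫⁻ p : (ℕ → Fin n) × (ℕ → Fin n),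
            (if ∀ s : Fin t, p.1 s ≠ π (p.2 s) then 1 else 0) ∂(μ.prod μ) := by
        rw [← lintegral_indicator_one hms]
        refine lintegral_congr fun p => ?_
        rw [Set.indicator_apply]
        rfl
      rw [hset, h2, h1]
      have hnt : ∀ x y : Fin t → Fin n, μ {z | ∀ s : Fin t, z s = x s} *
          μ {z | ∀ s : Fin t, z s = y s} *
          (if ∀ s : Fin t, x s ≠ π (y s) then (1 : ENNReal) else 0) ≠ ⊤ := by
        intro x y
        refine ENNReal.mul_ne_top (ENNReal.mul_ne_top (measure_ne_top _ _)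
          (measure_ne_top _ _)) ?_
        split_ifs <;> simp
      rw [ENNReal.toReal_sum (fun x _ => ENNReal.sum_ne_top.mpr (fun y _ => hnt x y))]
      refine Finset.sum_congr rfl fun x _ => ?_
      rw [ENNReal.toReal_sum (fun y _ => hnt x y)]
      refine Finset.sum_congr rfl fun y _ => ?_
      rw [ENNReal.toReal_mul, ENNReal.toReal_mul]
      congr 1
      split_ifs <;> simp
    simp_rw [key]
    rw [Finset.sum_comm]
    refine Finset.sum_congr rfl fun x _ => ?_
    rw [Finset.sum_comm]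
    refine Finset.sum_congr rfl fun y _ => ?_
    rw [← Finset.mul_sum]
    congr 1
    rw [Finset.sum_boole]
    have h3 : (univ.filter (fun π : Equiv.Perm (Fin n) => ∀ s : Fin t, x s ≠ π (y s))).card +
        (univ.filter (fun π : Equiv.Perm (Fin n) => ∃ s : Fin t, x s = π (y s))).card
        = n.factorial := by
      have h4 := Finset.card_filter_add_card_filter_not
        (s := (univ : Finset (Equiv.Perm (Fin n)))) (fun π => ∀ s : Fin t, x s ≠ π (y s))
      rw [Finset.card_univ, Fintype.card_perm, Fintype.card_fin] at h4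
      rw [← h4]
      congr 2
      ext π
      simp
    have h5 : ((univ.filter (fun π : Equiv.Perm (Fin n) => ∀ s : Fin t, x s ≠ π (y s))).card : ℝ) +
        ((univ.filter (fun π : Equiv.Perm (Fin n) => ∃ s : Fin t, x s = π (y s))).card : ℝ)
        = (n.factorial : ℝ) := by
      exact_mod_cast h3
    linarith
end
end Pool.Agent.H383Rdv

namespace Pool.Agent.H383Rdv
section
open MeasureTheory Finset
theorem P_step (n t : ℕ) (μ : Measure (ℕ → Fin n)) [IsProbabilityMeasure μ]
    (h1 : ∀ a b : Fin n, (univ.filter (fun π : Equiv.Perm (Fin n) => a = π b)).card = (n - 1).factorial) :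
    ∑ π : Equiv.Perm (Fin n),
        ((μ.prod μ) {p : (ℕ → Fin n) × (ℕ → Fin n) | ∀ s < t, p.1 s ≠ π (p.2 s)}).toReal - ((n - 1).factorial : ℝ)
      ≤ ∑ π : Equiv.Perm (Fin n),
        ((μ.prod μ) {p : (ℕ → Fin n) × (ℕ → Fin n) | ∀ s < t + 1, p.1 s ≠ π (p.2 s)}).toReal := by
  classical
  have hBm : ∀ π : Equiv.Perm (Fin n), MeasurableSet {p : (ℕ → Fin n) × (ℕ → Fin n) | p.1 t = π (p.2 t)} := by
    intro π
    have h1 : Measurable (fun p : (ℕ → Fin n) × (ℕ → Fin n) => p.1 t) :=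
      (measurable_pi_apply t).comp measurable_fst
    have h2 : Measurable (fun p : (ℕ → Fin n) × (ℕ → Fin n) => π (p.2 t)) :=
      (measurable_of_finite π).comp ((measurable_pi_apply t).comp measurable_snd)
    exact measurableSet_eq_fun h1 h2
  have hsum : ∑ π : Equiv.Perm (Fin n), ((μ.prod μ) {p : (ℕ → Fin n) × (ℕ → Fin n) | p.1 t = π (p.2 t)}).toReal
      = ((n-1).factorial : ℝ) := by
    rw [← ENNReal.toReal_sum (fun π _ => measure_ne_top _ _)]
    have h2 : ∑ π : Equiv.Perm (Fin n), (μ.prod μ) {p : (ℕ → Fin n) × (ℕ → Fin n) | p.1 t = π (p.2 t)}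
        = ((n-1).factorial : ENNReal) := by
      calc ∑ π : Equiv.Perm (Fin n), (μ.prod μ) {p : (ℕ → Fin n) × (ℕ → Fin n) | p.1 t = π (p.2 t)}
          = ∑ π : Equiv.Perm (Fin n), ∫⁻ p, ({p : (ℕ → Fin n) × (ℕ → Fin n) | p.1 t = π (p.2 t)}).indicator 1 p ∂(μ.prod μ) := by
            refine Finset.sum_congr rfl (fun π _ => ?_)
            rw [lintegral_indicator_one (hBm π)]
        _ = ∫⁻ p, ∑ π : Equiv.Perm (Fin n), ({p : (ℕ → Fin n) × (ℕ → Fin n) | p.1 t = π (p.2 t)}).indicator 1 p ∂(μ.prod μ) := by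
            rw [lintegral_finset_sum]
            intro π _
            exact measurable_one.indicator (hBm π)
        _ = ∫⁻ p, ((n-1).factorial : ENNReal) ∂(μ.prod μ) := by
            refine lintegral_congr (fun p => ?_)
            rw [← h1 (p.1 t) (p.2 t), Finset.card_filter]
            push_cast
            refine Finset.sum_congr rfl (fun π _ => ?_)
            simp [Set.indicator_apply]
        _ = _ := by simp
    rw [h2]; simp
  have hstep : ∀ π : Equiv.Perm (Fin n),
      ((μ.prod μ) {p : (ℕ → Fin n) × (ℕ → Fin n) | ∀ s < t, p.1 s ≠ π (p.2 s)}).toReal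
      ≤ ((μ.prod μ) {p : (ℕ → Fin n) × (ℕ → Fin n) | ∀ s < t + 1, p.1 s ≠ π (p.2 s)}).toReal
        + ((μ.prod μ) {p : (ℕ → Fin n) × (ℕ → Fin n) | p.1 t = π (p.2 t)}).toReal := by
    intro π
    rw [← ENNReal.toReal_add (measure_ne_top _ _) (measure_ne_top _ _)]
    apply ENNReal.toReal_mono
    · exact ENNReal.add_ne_top.mpr ⟨measure_ne_top _ _, measure_ne_top _ _⟩
    · refine le_trans (measure_mono ?_) (measure_union_le _ _)
      intro p hp
      simp only [Set.mem_union, Set.mem_setOf_eq] at hp ⊢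
      by_cases h : p.1 t = π (p.2 t)
      · exact Or.inr h
      · left
        intro s hs
        rcases Nat.lt_succ_iff_lt_or_eq.mp hs with h' | h'
        · exact hp s h'
        · rw [h']; exact h
  have := Finset.sum_le_sum (fun π (_ : π ∈ (Finset.univ : Finset (Equiv.Perm (Fin n)))) => hstep π)
  rw [Finset.sum_add_distrib, hsum] at this
  linarith
end
end Pool.Agent.H383Rdv

namespace Pool.Agent.H383Rdv
section
open MeasureTheory
theorem upper_uniform (n : ℕ) (hn : 1 ≤ n) :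
    ∃ μ : Measure (ℕ → Fin n), IsProbabilityMeasure μ ∧ ∀ π : Equiv.Perm (Fin n),
      ∫⁻ p : (ℕ → Fin n) × (ℕ → Fin n),
          (⨅ (t : ℕ) (_ : p.1 t = π (p.2 t)), ((t : ENNReal) + 1)) ∂(μ.prod μ) ≤ n := by
  classical
  have hn0 : (n : ENNReal) ≠ 0 := by
    simp only [ne_eq, Nat.cast_eq_zero]; omega
  have hnt : (n : ENNReal) ≠ ⊤ := ENNReal.natCast_ne_top n
  let ν : Measure (Fin n) := (n : ENNReal)⁻¹ • Measure.count
  have hν1 : ν Set.univ = 1 := by
    show ((n : ENNReal)⁻¹ • Measure.count) Set.univ = 1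
    rw [Measure.smul_apply, Measure.count_univ]
    simp only [ENat.card_eq_coe_fintype_card, Fintype.card_fin, smul_eq_mul]
    simpa using ENNReal.inv_mul_cancel hn0 hnt
  haveI : IsProbabilityMeasure ν := ⟨hν1⟩
  have hνs : ∀ a : Fin n, ν {a}ᶜ = 1 - (n : ENNReal)⁻¹ := by
    intro a
    rw [prob_compl_eq_one_sub (measurableSet_singleton a)]
    congr 1
    show ((n : ENNReal)⁻¹ • Measure.count) {a} = (n : ENNReal)⁻¹
    rw [Measure.smul_apply, Measure.count_singleton, smul_eq_mul, mul_one]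
  let μ : Measure (ℕ → Fin n) := Measure.infinitePi (fun _ : ℕ => ν)
  haveI : IsProbabilityMeasure μ := by
    show IsProbabilityMeasure (Measure.infinitePi (fun _ : ℕ => ν))
    infer_instance
  refine ⟨μ, inferInstance, fun π => ?_⟩
  let A : ℕ → Set ((ℕ → Fin n) × (ℕ → Fin n)) :=
    fun t => {p | ∀ s ∈ Finset.range t, p.1 s ≠ π (p.2 s)}
  have hA : ∀ t, MeasurableSet (A t) := by
    intro t
    have : A t = ⋂ s ∈ Finset.range t, {p : (ℕ → Fin n) × (ℕ → Fin n) | p.1 s = π (p.2 s)}ᶜ := by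
      ext p
      simp [A]
    rw [this]
    refine Finset.measurableSet_biInter _ fun s _ => MeasurableSet.compl ?_
    apply measurableSet_eq_fun
    · exact (measurable_pi_apply s).comp measurable_fst
    · exact (measurable_of_finite π).comp ((measurable_pi_apply s).comp measurable_snd)
  have hAm : ∀ t, (μ.prod μ) (A t) = (1 - (n : ENNReal)⁻¹) ^ t := by
    intro t
    rw [Measure.prod_apply_symm (hA t)]
    have h1 : ∀ y : ℕ → Fin n, μ ((fun x => (x, y)) ⁻¹' (A t)) = (1 - (n : ENNReal)⁻¹) ^ t := by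
      intro y
      have h2 : ((fun x => (x, y)) ⁻¹' (A t)) =
          Set.pi (Finset.range t : Set ℕ) (fun s => {π (y s)}ᶜ) := by
        ext x
        simp [A, Set.mem_pi]
      rw [h2]
      show (Measure.infinitePi (fun _ : ℕ => ν)) _ = _
      rw [Measure.infinitePi_pi]
      · simp only [hνs, Finset.prod_const, Finset.card_range]
      · intro i _
        exact (measurableSet_singleton _).compl
    simp only [h1, lintegral_const, measure_univ, mul_one]
  have hpt : ∀ p : (ℕ → Fin n) × (ℕ → Fin n),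
      (⨅ (t : ℕ) (_ : p.1 t = π (p.2 t)), ((t : ENNReal) + 1)) ≤
        ∑' t, (A t).indicator (fun _ => (1 : ENNReal)) p := by
    intro p
    by_cases hex : ∃ t, p.1 t = π (p.2 t)
    · have hspec := Nat.find_spec hex
      have hmin : ∀ s < Nat.find hex, p.1 s ≠ π (p.2 s) := fun s hs => Nat.find_min hex hs
      refine (iInf₂_le (Nat.find hex) hspec).trans ?_
      refine le_trans ?_ (ENNReal.sum_le_tsum (Finset.range (Nat.find hex + 1)))
      have : ∑ t ∈ Finset.range (Nat.find hex + 1), (A t).indicator (fun _ => (1 : ENNReal)) p =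
          ∑ t ∈ Finset.range (Nat.find hex + 1), (1 : ENNReal) := by
        apply Finset.sum_congr rfl
        intro t ht
        rw [Set.indicator_of_mem]
        intro s hs
        rw [Finset.mem_range] at ht hs
        exact hmin s (by omega)
      rw [this]
      simp
    · push_neg at hex
      have : ∀ t, (A t).indicator (fun _ => (1 : ENNReal)) p = 1 := by
        intro t
        rw [Set.indicator_of_mem]
        intro s _
        exact hex s
      simp only [this]
      rw [ENNReal.tsum_const_eq_top_of_ne_zero one_ne_zero]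
      exact le_top
  refine (lintegral_mono hpt).trans ?_
  rw [lintegral_tsum (fun t => (measurable_const.indicator (hA t)).aemeasurable)]
  have h3 : ∀ t, ∫⁻ p, (A t).indicator (fun _ => (1 : ENNReal)) p ∂(μ.prod μ) =
      (1 - (n : ENNReal)⁻¹) ^ t := by
    intro t
    rw [lintegral_indicator (hA t), lintegral_const, Measure.restrict_apply_univ, one_mul, hAm]
  simp only [h3]
  rw [ENNReal.tsum_geometric, ENNReal.sub_sub_cancel ENNReal.one_ne_top, inv_inv]
  rw [ENNReal.inv_le_one]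
  exact_mod_cast hn
end
end Pool.Agent.H383Rdv

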