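import Mathlib
import Pool.Agent.H383Rdv.Defs
import Pool.Agent.H383Rdv.Lemmas

open MeasureTheory Finset

namespace Pool.Agent.H383Rdv

/-- number of matchings that produce a meeting for the given first `t` choices -/
noncomputable def hitc (n t : ℕ) (x y : Fin t → Fin n) : ℕ :=
  (univ.filter (fun π : Equiv.Perm (Fin n) => ∃ s : Fin t, x s = π (y s))).card

noncomputable def cZ (n t : ℕ) (x y : Fin t → Fin n) : ℝ :=
  (((univ : Finset (Fin t × Fin t)).filter (fun u => x u.1 ≠ x u.2 ∧ y u.1 ≠ y u.2)).card : ℝ)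

noncomputable def cQ (n t : ℕ) (x y : Fin t → Fin n) : ℝ :=
  (((univ : Finset (Fin t × Fin t)).filter
              (fun u => u.1 ≠ u.2 ∧ x u.1 = x u.2 ∧ y u.1 = y u.2)).card : ℝ)

theorem hit_bound (n t : ℕ) (hn : 3 ≤ n) (ht : 1 ≤ t) (ht2 : t ≤ n - 1) (x y : Fin t → Fin n) :
    (hitc n t x y : ℝ) / (n.factorial : ℝ) ≤
      (t : ℝ) / n - (cZ n t x y / 2 + (((n : ℝ) - 1) / t) * cQ n t x y) / (n * (n - 1))
        + (t : ℝ) ^ 3 / (6 * n * (n - 1) * (n - 2)) := by
  obtain ⟨h1, h2, h3⟩ := perm_counts n hn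
  set E := univ.image (fun s => (x s, y s)) with hE
  have hb := hits_bound n hn h1 h2 h3 E
  have hset : (univ.filter (fun π : Equiv.Perm (Fin n) => ∃ p ∈ E, p.1 = π p.2)).card = hitc n t x y := by
    unfold hitc
    congr 1
    ext π
    simp [hE]
  rw [hset] at hb
  have hd := disjoint_pairs n t x y
  have hq := equal_pairs n t x y
  rw [← hE] at hd hq
  set D2 := ((E ×ˢ E).filter (fun q => q.1.1 ≠ q.2.1 ∧ q.1.2 ≠ q.2.2)).card with hD2
  have hdR : cZ n t x y - 2 * t * (t - (E.card : ℝ)) + 2 * cQ n t x y ≤ (D2 : ℝ) := by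
    unfold cZ cQ
    exact_mod_cast hd
  have hqR : cQ n t x y ≤ t * (t - (E.card : ℝ)) := by
    unfold cQ
    exact_mod_cast hq
  have hecard : E.card ≤ t := by
    have := card_image_le (s := (univ : Finset (Fin t))) (f := fun s => (x s, y s))
    simpa [hE] using this
  obtain ⟨m, rfl⟩ : ∃ m, n = m + 3 := ⟨n - 3, by omega⟩
  have f0 : (m + 3).factorial = (m + 3) * ((m + 2) * ((m + 1) * m.factorial)) := by
    rw [Nat.factorial_succ, Nat.factorial_succ, Nat.factorial_succ]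
  have f1 : (m + 3 - 1).factorial = (m + 2) * ((m + 1) * m.factorial) := by
    rw [show m + 3 - 1 = m + 2 by omega, Nat.factorial_succ, Nat.factorial_succ]
  have f2 : (m + 3 - 2).factorial = (m + 1) * m.factorial := by
    rw [show m + 3 - 2 = m + 1 by omega, Nat.factorial_succ]
  have f3 : (m + 3 - 3).factorial = m.factorial := by
    rw [show m + 3 - 3 = m by omega]
  rw [f1, f2, f3] at hb
  rw [f0]
  have hF : (0 : ℝ) < (m.factorial : ℝ) := by exact_mod_cast Nat.factorial_pos m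
  have ht0 : (0 : ℝ) < t := by exact_mod_cast ht
  have htm : (t : ℝ) ≤ m + 2 := by
    have : t ≤ m + 2 := by omega
    exact_mod_cast this
  have heR : (E.card : ℝ) ≤ t := by exact_mod_cast hecard
  have he0 : (0 : ℝ) ≤ (E.card : ℝ) := by positivity
  have hm0 : (0 : ℝ) ≤ m := by positivity
  have he3 : (E.card : ℝ) ^ 3 ≤ (t : ℝ) ^ 3 := pow_le_pow_left₀ he0 heR 3
  push_cast at hb ⊢
  generalize (hitc (m + 3) t x y : ℝ) = H at *
  generalize cZ (m + 3) t x y = Z at *
  generalize cQ (m + 3) t x y = Q at *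
  generalize (E.card : ℝ) = e at *
  generalize (D2 : ℝ) = D at *
  generalize (m.factorial : ℝ) = F at *
  have hQt : Q / t ≤ t - e := by
    rw [div_le_iff₀ ht0]
    linarith
  have key : H ≤ F * (m + 1) * (e * (m + 2) - D / 2 + (t : ℝ) ^ 3 / (6 * (m + 1))) := by
    have hm1 : (0 : ℝ) < m + 1 := by positivity
    have : F * (m + 1) * (e * (m + 2) - D / 2 + (t : ℝ) ^ 3 / (6 * (m + 1)))
        = e * ((m + 2) * ((m + 1) * F)) - D * ((m + 1) * F) / 2 + (t : ℝ) ^ 3 * F / 6 := by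
      field_simp
    rw [this]
    have h6 : e ^ 3 * F / 6 ≤ (t : ℝ) ^ 3 * F / 6 := by
      have := mul_le_mul_of_nonneg_right he3 hF.le
      linarith
    linarith
  have key2 : e * (m + 2) - D / 2 ≤ t * (m + 2) - (Z / 2 + ((m + 2) / t) * Q) := by
    have e1 : ((m : ℝ) + 2) / t * Q = (m + 2) * (Q / t) := by ring
    rw [e1]
    have e2 : Q = t * (Q / t) := by field_simp
    have h7 : ((m : ℝ) + 2 - t) * (Q / t) ≤ (m + 2 - t) * (t - e) :=
      mul_le_mul_of_nonneg_left hQt (by linarith)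
    have h8 : Q + (m + 2 - t) * (Q / t) = (m + 2) * (Q / t) := by
      nth_rewrite 1 [e2]; ring
    nlinarith
  have hden : (0 : ℝ) < (m + 3) * ((m + 2) * ((m + 1) * F)) := by positivity
  rw [div_le_iff₀ hden]
  have hrhs : ((t : ℝ) / (m + 3) - (Z / 2 + ((m : ℝ) + 3 - 1) / t * Q) / ((m + 3) * (m + 3 - 1))
        + (t : ℝ) ^ 3 / (6 * (m + 3) * (m + 3 - 1) * (m + 3 - 2))) * ((m + 3) * ((m + 2) * ((m + 1) * F)))
      = F * (m + 1) * (t * (m + 2) - (Z / 2 + ((m + 2) / t) * Q) + (t : ℝ) ^ 3 / (6 * (m + 1))) := by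
    have a1 : (m : ℝ) + 3 - 1 = m + 2 := by ring
    have a2 : (m : ℝ) + 3 - 2 = m + 1 := by ring
    rw [a1, a2]
    field_simp
  rw [hrhs]
  refine le_trans key ?_
  apply mul_le_mul_of_nonneg_left _ (by positivity)
  linarith

/-- averaged version -/
theorem avg_hit (n t : ℕ) (hn : 3 ≤ n) (ht : 1 ≤ t) (ht2 : t ≤ n - 1)
    (ν : (Fin t → Fin n) → ℝ) (hν : ∀ x, 0 ≤ ν x) (hsum : ∑ x, ν x = 1) :
    ∑ x, ∑ y, ν x * ν y * ((hitc n t x y : ℝ) / (n.factorial : ℝ)) ≤
      (t : ℝ) / n - (t : ℝ) * (t - 1) / (n * (t + 2 * n - 2))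
        + (t : ℝ) ^ 3 / (6 * n * (n - 1) * (n - 2)) := by
  have hnR : (3 : ℝ) ≤ n := by exact_mod_cast hn
  have ht0 : (0 : ℝ) < t := by exact_mod_cast ht
  set c : ℝ := ((n : ℝ) - 1) / t with hc
  have hc0 : 0 < c := div_pos (by linarith) ht0
  have hex := expect_bound n t ν hν hsum c hc0
  set W : ℝ := ∑ x, ∑ y, ν x * ν y * (cZ n t x y / 2 + c * cQ n t x y) with hW
  have hex' : (t : ℝ) * (t - 1) * (c / (1 + 2 * c)) ≤ W := hex
  have hone : ∑ x, ∑ y, ν x * ν y = 1 := by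
    rw [← Finset.sum_mul_sum, hsum, one_mul]
  have hle : ∑ x, ∑ y, ν x * ν y * ((hitc n t x y : ℝ) / (n.factorial : ℝ)) ≤
      ∑ x, ∑ y, ν x * ν y * ((t : ℝ) / n - (cZ n t x y / 2 + c * cQ n t x y) / (n * (n - 1))
        + (t : ℝ) ^ 3 / (6 * n * (n - 1) * (n - 2))) := by
    apply sum_le_sum; intro x _
    apply sum_le_sum; intro y _
    exact mul_le_mul_of_nonneg_left (hit_bound n t hn ht ht2 x y) (mul_nonneg (hν x) (hν y))
  refine le_trans hle ?_
  have hsplit : ∑ x, ∑ y, ν x * ν y * ((t : ℝ) / n - (cZ n t x y / 2 + c * cQ n t x y) / (n * (n - 1))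
        + (t : ℝ) ^ 3 / (6 * n * (n - 1) * (n - 2)))
      = ((t : ℝ) / n + (t : ℝ) ^ 3 / (6 * n * (n - 1) * (n - 2))) * ∑ x, ∑ y, ν x * ν y
        - W / (n * (n - 1)) := by
    rw [hW, mul_sum, sum_div, ← sum_sub_distrib]
    apply sum_congr rfl; intro x _
    rw [mul_sum, sum_div, ← sum_sub_distrib]
    apply sum_congr rfl; intro y _
    ring
  rw [hsplit, hone, mul_one]
  have hn1 : (0 : ℝ) < (n : ℝ) * (n - 1) := by nlinarith
  have hdiv : (t : ℝ) * (t - 1) / (n * (t + 2 * n - 2)) ≤ W / (n * (n - 1)) := by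
    have e1 : (t : ℝ) * (t - 1) / (n * (t + 2 * n - 2)) = ((t : ℝ) * (t - 1) * (c / (1 + 2 * c))) / (n * (n - 1)) := by
      rw [hc]
      have a1 : (n : ℝ) ≠ 0 := by linarith
      have a2 : (n : ℝ) - 1 ≠ 0 := by intro h; linarith
      have a3 : (t : ℝ) + 2 * n - 2 ≠ 0 := by intro h; linarith
      have a4 : (1 : ℝ) + 2 * (((n : ℝ) - 1) / t) = (t + 2 * n - 2) / t := by
        field_simp; ring
      rw [a4]
      field_simp
    rw [e1]
    exact div_le_div_of_nonneg_right hex' hn1.le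
  linarith

/-- probability (times n!) that the players have not met before time t -/
noncomputable def notMet (n : ℕ) (μ : Measure (ℕ → Fin n)) (t : ℕ) : ℝ :=
  ∑ π : Equiv.Perm (Fin n),
    ((μ.prod μ) {p : (ℕ → Fin n) × (ℕ → Fin n) | ∀ s < t, p.1 s ≠ π (p.2 s)}).toReal

noncomputable def gam (n t : ℕ) : ℝ :=
  (t : ℝ) * (t - 1) / (n * (t + 2 * n - 2)) - (t : ℝ) ^ 3 / (6 * n * (n - 1) * (n - 2))

theorem notMet_ge (n t : ℕ) (hn : 3 ≤ n) (ht2 : t ≤ n - 1) (μ : Measure (ℕ → Fin n))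
    [IsProbabilityMeasure μ] :
    1 - (t : ℝ) / n + gam n t ≤ notMet n μ t / (n.factorial : ℝ) := by
  have hF : (0 : ℝ) < (n.factorial : ℝ) := by exact_mod_cast Nat.factorial_pos n
  rcases Nat.eq_zero_or_pos t with h0 | ht
  · subst h0
    unfold notMet gam
    have : ∀ π : Equiv.Perm (Fin n),
        ((μ.prod μ) {p : (ℕ → Fin n) × (ℕ → Fin n) | ∀ s < 0, p.1 s ≠ π (p.2 s)}).toReal = 1 := by
      intro π
      have : {p : (ℕ → Fin n) × (ℕ → Fin n) | ∀ s < 0, p.1 s ≠ π (p.2 s)} = Set.univ := by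
        ext p; simp
      rw [this]; simp
    simp only [this]
    rw [sum_const, card_univ, Fintype.card_perm, Fintype.card_fin]
    simp [hF.ne']
  · obtain ⟨hs, hP⟩ := P_eq n t μ (bridge n t μ)
    unfold notMet
    rw [hP]
    have hav := avg_hit n t hn ht ht2 (fun x => (μ {z | ∀ s : Fin t, z s = x s}).toReal)
      (fun x => ENNReal.toReal_nonneg) hs
    have hone : ∑ x : Fin t → Fin n, ∑ y : Fin t → Fin n,
        (μ {z | ∀ s : Fin t, z s = x s}).toReal * (μ {z | ∀ s : Fin t, z s = y s}).toReal = 1 := by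
      rw [← Finset.sum_mul_sum, hs, one_mul]
    have heq : (∑ x : Fin t → Fin n, ∑ y : Fin t → Fin n,
          (μ {z | ∀ s : Fin t, z s = x s}).toReal * (μ {z | ∀ s : Fin t, z s = y s}).toReal *
            ((n.factorial : ℝ) -
              ((univ.filter (fun π : Equiv.Perm (Fin n) => ∃ s : Fin t, x s = π (y s))).card : ℝ))) / (n.factorial : ℝ)
        = 1 - ∑ x : Fin t → Fin n, ∑ y : Fin t → Fin n,
          (μ {z | ∀ s : Fin t, z s = x s}).toReal * (μ {z | ∀ s : Fin t, z s = y s}).toReal *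
            ((hitc n t x y : ℝ) / (n.factorial : ℝ)) := by
      rw [← hone, sum_div, ← sum_sub_distrib]
      apply sum_congr rfl; intro x _
      rw [sum_div, ← sum_sub_distrib]
      apply sum_congr rfl; intro y _
      unfold hitc
      field_simp
    rw [heq]
    unfold gam
    linarith

theorem notMet_late (n i : ℕ) (hn : 3 ≤ n) (μ : Measure (ℕ → Fin n)) [IsProbabilityMeasure μ] :
    notMet n μ (n - 1) / (n.factorial : ℝ) - (i : ℝ) / n ≤ notMet n μ (n - 1 + i) / (n.factorial : ℝ) := by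
  obtain ⟨h1, -, -⟩ := perm_counts n hn
  have hF : (0 : ℝ) < (n.factorial : ℝ) := by exact_mod_cast Nat.factorial_pos n
  have hn0 : (0 : ℝ) < n := by
    have : 0 < n := by omega
    exact_mod_cast this
  have hfac : (n.factorial : ℝ) = n * ((n - 1).factorial : ℝ) := by
    have : n.factorial = n * (n - 1).factorial := (Nat.mul_factorial_pred (by omega)).symm
    exact_mod_cast this
  induction i with
  | zero => simp
  | succ i ih =>
    have hstep := P_step n (n - 1 + i) μ h1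
    have hs2 : notMet n μ (n - 1 + i) - ((n - 1).factorial : ℝ) ≤ notMet n μ (n - 1 + (i + 1)) := hstep
    have hF1 : (0 : ℝ) < ((n - 1).factorial : ℝ) := by exact_mod_cast Nat.factorial_pos _
    have hs3 : notMet n μ (n - 1 + i) / (n.factorial : ℝ) - 1 / n ≤ notMet n μ (n - 1 + (i + 1)) / (n.factorial : ℝ) := by
      have : (1 : ℝ) / n = ((n - 1).factorial : ℝ) / (n.factorial : ℝ) := by
        rw [hfac]; field_simp
      rw [this, ← sub_div]
      exact div_le_div_of_nonneg_right hs2 hF.le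
    push_cast
    have : ((i : ℝ) + 1) / n = (i : ℝ) / n + 1 / n := by ring
    rw [this]
    linarith

/-- The lower bound for every common strategy. -/
theorem expMeet_ge (n : ℕ) (hn : 3 ≤ n) (μ : Measure (ℕ → Fin n)) [IsProbabilityMeasure μ] :
    ENNReal.ofReal ((59 / 100 : ℝ) * n) ≤ expMeet n μ := by
  have hF : (0 : ℝ) < (n.factorial : ℝ) := by exact_mod_cast Nat.factorial_pos n
  have hn0 : (0 : ℝ) < n := by
    have : 0 < n := by omega
    exact_mod_cast this
  set M := n + n / 6 with hM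
  have hge := exp_ge n M μ
  have hreal : ENNReal.ofReal (∑ t ∈ range M, notMet n μ t) =
      ∑ t ∈ range M, ∑ π : Equiv.Perm (Fin n),
        (μ.prod μ) {p : (ℕ → Fin n) × (ℕ → Fin n) | ∀ s < t, p.1 s ≠ π (p.2 s)} := by
    rw [ENNReal.ofReal_sum_of_nonneg]
    · apply sum_congr rfl; intro t _
      unfold notMet
      rw [ENNReal.ofReal_sum_of_nonneg (fun _ _ => ENNReal.toReal_nonneg)]
      apply sum_congr rfl; intro π _
      exact ENNReal.ofReal_toReal (measure_ne_top _ _)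
    · intro t _
      exact sum_nonneg (fun _ _ => ENNReal.toReal_nonneg)
  have hsum : (59 / 100 : ℝ) * n * (n.factorial : ℝ) ≤ ∑ t ∈ range M, notMet n μ t := by
    have h8 := sum_lower n hn
    have hA : ∑ t ∈ range n, (1 - (t : ℝ) / n + ((t : ℝ) * (t - 1) / (n * (t + 2 * n - 2)) - (t : ℝ) ^ 3 / (6 * n * (n - 1) * (n - 2))))
        ≤ ∑ t ∈ range n, notMet n μ t / (n.factorial : ℝ) := by
      apply sum_le_sum; intro t ht
      have ht' : t ≤ n - 1 := by have := mem_range.mp ht; omega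
      have := notMet_ge n t hn ht' μ
      unfold gam at this
      exact this
    have hB : ∑ i ∈ range (n / 6), ((((n : ℝ) - 1) * (n - 2) / (n * (3 * n - 3)) - ((n : ℝ) - 1) ^ 3 / (6 * n * (n - 1) * (n - 2))) - (i : ℝ) / n)
        ≤ ∑ i ∈ range (n / 6), notMet n μ (n + i) / (n.factorial : ℝ) := by
      apply sum_le_sum; intro i _
      have e1 := notMet_ge n (n - 1) hn le_rfl μ
      have e2 := notMet_late n (i + 1) hn μ
      have e3 : n - 1 + (i + 1) = n + i := by omega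
      rw [e3] at e2
      have hcast : ((n - 1 : ℕ) : ℝ) = (n : ℝ) - 1 := by
        rw [Nat.cast_sub (by omega)]; simp
      unfold gam at e1
      rw [hcast] at e1
      push_cast at e2
      have e4 : ((i : ℝ) + 1) / n = (i : ℝ) / n + 1 / n := by ring
      have e5 : ((n : ℝ) - 1) / n = 1 - 1 / n := by field_simp
      have e6 : ((n : ℝ) - 1) * ((n : ℝ) - 1 - 1) / (n * ((n : ℝ) - 1 + 2 * n - 2)) = ((n : ℝ) - 1) * (n - 2) / (n * (3 * n - 3)) := by
        congr 1 <;> ring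
      rw [e6, e5] at e1
      rw [e4] at e2
      linarith
    have hC : ∑ t ∈ range M, notMet n μ t / (n.factorial : ℝ)
        = ∑ t ∈ range n, notMet n μ t / (n.factorial : ℝ) + ∑ i ∈ range (n / 6), notMet n μ (n + i) / (n.factorial : ℝ) := by
      rw [hM, sum_range_add]
    have hD : (59 / 100 : ℝ) * n ≤ (∑ t ∈ range M, notMet n μ t) / (n.factorial : ℝ) := by
      rw [sum_div, hC]
      linarith
    rwa [le_div_iff₀ hF] at hD
  unfold expMeet firstMeet
  rw [ENNReal.le_div_iff_mul_le (Or.inl (by exact_mod_cast (Nat.factorial_pos n).ne')) (Or.inl (ENNReal.natCast_ne_top _))]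
  have hnat : (n.factorial : ENNReal) = ENNReal.ofReal (n.factorial : ℝ) := by
    rw [ENNReal.ofReal_natCast]
  rw [hnat, ← ENNReal.ofReal_mul (by positivity)]
  refine le_trans (ENNReal.ofReal_le_ofReal hsum) ?_
  rw [hreal]
  exact hge

theorem expMeet2_eq (n : ℕ) (μ : Measure (ℕ → Fin n)) : expMeet2 n μ = expMeet n μ := by
  unfold expMeet2 expMeet
  have key : ∀ σ₁ : Equiv.Perm (Fin n), ∑ σ₂ : Equiv.Perm (Fin n),
      ∫⁻ p : (ℕ → Fin n) × (ℕ → Fin n),
        firstMeet (fun t => σ₁ (p.1 t)) (fun t => σ₂ (p.2 t)) ∂(μ.prod μ)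
      = ∑ π : Equiv.Perm (Fin n), ∫⁻ p : (ℕ → Fin n) × (ℕ → Fin n),
        firstMeet p.1 (fun t => π (p.2 t)) ∂(μ.prod μ) := by
    intro σ₁
    refine Fintype.sum_equiv (Equiv.mulLeft σ₁⁻¹) _ _ ?_
    intro σ₂
    congr 1
    funext p
    unfold firstMeet
    congr 1
    funext t
    have : (σ₁ (p.1 t) = σ₂ (p.2 t)) ↔ (p.1 t = ((Equiv.mulLeft σ₁⁻¹) σ₂) (p.2 t)) := by
      simp only [Equiv.coe_mulLeft, Equiv.Perm.mul_apply]
      rw [Equiv.Perm.eq_inv_iff_eq]
    simp only [this]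
  simp only [key]
  rw [sum_const, card_univ, Fintype.card_perm, Fintype.card_fin, nsmul_eq_mul]
  have h0 : (n.factorial : ENNReal) ≠ 0 := by exact_mod_cast (Nat.factorial_pos n).ne'
  have ht : (n.factorial : ENNReal) ≠ ⊤ := ENNReal.natCast_ne_top _
  rw [ENNReal.mul_div_mul_left _ _ h0 ht]

theorem symValue_ge (n : ℕ) (hn : 3 ≤ n) : ENNReal.ofReal ((59 / 100 : ℝ) * n) ≤ symValue n :=
  le_iInf₂ fun μ hμ => by
    haveI := hμ
    exact expMeet_ge n hn μ

theorem rendezvousValue_ge (n : ℕ) (hn : 3 ≤ n) :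
    ENNReal.ofReal ((59 / 100 : ℝ) * n) ≤ rendezvousValue n :=
  le_iInf₂ fun μ hμ => by
    haveI := hμ
    rw [expMeet2_eq]
    exact expMeet_ge n hn μ

theorem symValue_le (n : ℕ) (hn : 1 ≤ n) : symValue n ≤ n := by
  obtain ⟨μ, hμ, hπ⟩ := upper_uniform n hn
  refine le_trans (iInf₂_le μ hμ) ?_
  unfold expMeet firstMeet
  have h0 : (n.factorial : ENNReal) ≠ 0 := by exact_mod_cast (Nat.factorial_pos n).ne'
  have ht : (n.factorial : ENNReal) ≠ ⊤ := ENNReal.natCast_ne_top _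
  rw [ENNReal.div_le_iff h0 ht]
  refine le_trans (sum_le_sum (fun π _ => hπ π)) ?_
  rw [sum_const, card_univ, Fintype.card_perm, Fintype.card_fin, nsmul_eq_mul, mul_comm]

theorem rendezvousValue_eq (n : ℕ) : rendezvousValue n = symValue n := by
  unfold rendezvousValue symValue
  simp only [expMeet2_eq]

end Pool.Agent.H383Rdv
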