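import Mathlib
import Pool.Agent.H383Rdv.Main

open MeasureTheory Finset

namespace Pool.Agent.H383Rdv

theorem measurableSet_notMet (n t : ℕ) (π : Equiv.Perm (Fin n)) :
    MeasurableSet {p : (ℕ → Fin n) × (ℕ → Fin n) | ∀ s < t, p.1 s ≠ π (p.2 s)} := by
  have h : {p : (ℕ → Fin n) × (ℕ → Fin n) | ∀ s < t, p.1 s ≠ π (p.2 s)}
      = ⋂ s : Fin t, {p : (ℕ → Fin n) × (ℕ → Fin n) | p.1 s = π (p.2 s)}ᶜ := by
    ext p
    simp only [Set.mem_setOf_eq, Set.mem_iInter, Set.mem_compl_iff]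
    constructor
    · intro hp s; exact hp s.1 s.2
    · intro hp s hs; exact hp ⟨s, hs⟩
  rw [h]
  refine MeasurableSet.iInter fun s => MeasurableSet.compl ?_
  have hm1 : Measurable (fun p : (ℕ → Fin n) × (ℕ → Fin n) => p.1 (s : ℕ)) :=
    (measurable_pi_apply (s : ℕ)).comp measurable_fst
  have hm2 : Measurable (fun p : (ℕ → Fin n) × (ℕ → Fin n) => π (p.2 (s : ℕ))) :=
    (Measurable.of_discrete (f := (π : Fin n → Fin n))).comp ((measurable_pi_apply (s : ℕ)).comp measurable_snd)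
  exact measurableSet_eq_fun hm1 hm2

theorem probMet_eq (n t : ℕ) (μ : Measure (ℕ → Fin n)) [IsProbabilityMeasure μ] :
    probMet n μ t = 1 - notMet n μ t / (n.factorial : ℝ) := by
  have hF : (0 : ℝ) < (n.factorial : ℝ) := by exact_mod_cast Nat.factorial_pos n
  unfold probMet notMet
  have h1 : ∀ π : Equiv.Perm (Fin n),
      ((μ.prod μ) {p : (ℕ → Fin n) × (ℕ → Fin n) | ∃ s < t, p.1 s = π (p.2 s)}).toReal
      = 1 - ((μ.prod μ) {p : (ℕ → Fin n) × (ℕ → Fin n) | ∀ s < t, p.1 s ≠ π (p.2 s)}).toReal := by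
    intro π
    have hc : {p : (ℕ → Fin n) × (ℕ → Fin n) | ∃ s < t, p.1 s = π (p.2 s)}
        = {p : (ℕ → Fin n) × (ℕ → Fin n) | ∀ s < t, p.1 s ≠ π (p.2 s)}ᶜ := by
      ext p
      simp
    rw [hc, prob_compl_eq_one_sub (measurableSet_notMet n t π),
      ENNReal.toReal_sub_of_le prob_le_one ENNReal.one_ne_top, ENNReal.toReal_one]
  simp only [h1]
  rw [sum_sub_distrib, sum_const, card_univ, Fintype.card_perm, Fintype.card_fin, nsmul_eq_mul, mul_one,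
    sub_div, div_self hF.ne']

theorem probMet_le (n t : ℕ) (hn : 3 ≤ n) (ht : t ≤ n - 1) (μ : Measure (ℕ → Fin n))
    [IsProbabilityMeasure μ] :
    probMet n μ t ≤ (t : ℝ) / n - (t : ℝ) * (t - 1) / (n * (t + 2 * n - 2))
      + (t : ℝ) ^ 3 / (6 * n * (n - 1) * (n - 2)) := by
  rw [probMet_eq]
  have := notMet_ge n t hn ht μ
  unfold gam at this
  linarith

theorem probMet2_eq (n t : ℕ) (μ : Measure (ℕ → Fin n)) : probMet2 n μ t = probMet n μ t := by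
  unfold probMet2 probMet
  have key : ∀ σ₁ : Equiv.Perm (Fin n), ∑ σ₂ : Equiv.Perm (Fin n),
      ((μ.prod μ) {p : (ℕ → Fin n) × (ℕ → Fin n) | ∃ s < t, σ₁ (p.1 s) = σ₂ (p.2 s)}).toReal
      = ∑ π : Equiv.Perm (Fin n),
        ((μ.prod μ) {p : (ℕ → Fin n) × (ℕ → Fin n) | ∃ s < t, p.1 s = π (p.2 s)}).toReal := by
    intro σ₁
    refine Fintype.sum_equiv (Equiv.mulLeft σ₁⁻¹) _ _ ?_
    intro σ₂
    congr 2
    ext p
    have : ∀ s, (σ₁ (p.1 s) = σ₂ (p.2 s)) ↔ (p.1 s = ((Equiv.mulLeft σ₁⁻¹) σ₂) (p.2 s)) := by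
      intro s
      simp only [Equiv.coe_mulLeft, Equiv.Perm.mul_apply]
      rw [Equiv.Perm.eq_inv_iff_eq]
    simp only [Set.mem_setOf_eq, this]
  simp only [key]
  rw [sum_const, card_univ, Fintype.card_perm, Fintype.card_fin, nsmul_eq_mul]
  have hF : (n.factorial : ℝ) ≠ 0 := by exact_mod_cast (Nat.factorial_pos n).ne'
  rw [mul_div_mul_left _ _ hF]

end Pool.Agent.H383Rdv
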